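import Pool.Agent.H612.Aff

/-!
# Instances of affine projection whose first polynomial is `- x₀⁴`
-/

namespace Pool.Agent.NPC.R537QN

open Pool.Agent.NPC.H612

/-- The instances with `f = - x₀⁴` and all terms of `g` of degree 4. -/
def PowerInstance (I : AffInst) : Prop :=
  1 ≤ I.1 ∧ I.2.1 = [(-1, 4 :: List.replicate (I.1 - 1) 0)] ∧ ∀ t ∈ I.2.2, t.2.sum = 4

end Pool.Agent.NPC.R537QN
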