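import Pool.Agent.R537.QN.SpecPoly
import Pool.Agent.H612.AffMain
import Pool.Agent.R537.QN.AffDefs

/-!
# Affine projections of a quartic form onto a single power
-/

namespace Pool.Agent.NPC.R537QN

open Pool.Agent.NPC Pool.Agent.NPC.ER Pool.Agent.H78R3.TSV Pool.Agent.NPC.H78TSV
open Pool.Agent.R537.QN Pool.Agent.NPC.H612

/-- Raw terms of a term `c * (x_i x_j + x_j x_i)`. -/
def tRaw (t : QT) : List (Bool × List ℕ) :=
  ((List.range 16).filter (fun r => decide (r < 2 * t.1.natAbs))).map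
    (fun _ => (decide (t.1 < 0), [t.2.1, t.2.2]))

/-- Raw terms of a quadratic form. -/
def gRaw (g : QC) : List (Bool × List ℕ) := tRaw g.1 ++ (tRaw g.2.1 ++ tRaw g.2.2)

/-- The square of a raw form. -/
def posSq (q : List (Bool × List ℕ)) : List (Bool × List ℕ) :=
  q.flatMap fun p => q.map fun p' => (xor p.1 p'.1, p.2 ++ p'.2)

/-- Raw terms of `∑ g² - h²`. -/
def nRaw (T : List ER.Con) : List (Bool × List ℕ) :=
  (nsys T).flatMap (fun g => posSq (gRaw g)) ++ negSq (tRaw (hform T))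

/-- The instance of a system: `f = - X₀⁴`, `g = ∑ g² - h²`. -/
def ninst (S : List ER.Con) : AffInst :=
  (nn (bsys S), [(-1, expv (nn (bsys S)) [0, 0, 0, 0])],
    collect (nn (bsys S)) (nRaw (bsys S)))

theorem rawEval_tRaw (y : ℕ → ℝ) (t : QT) (ht : t.1.natAbs ≤ 8) :
    rawEval y (tRaw t) = tev y y t := by
  have h3 : ∀ m w : ℕ, w ≤ m → ((List.range m).filter (fun r => decide (r < w))).length = w := by
    intro m w
    induction m with
    | zero => intro h; simp; omega
    | succ m ih =>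
      intro hw
      rw [List.range_succ, List.filter_append, List.length_append]
      by_cases h : w ≤ m
      · rw [ih h]
        simp [not_lt.2 h]
      · have hw' : w = m + 1 := by omega
        have e1 : ((List.range m).filter (fun r => decide (r < w))).length = m := by
          rw [List.filter_eq_self.2]
          · simp
          · intro a ha
            have := List.mem_range.1 ha
            simp
            omega
        rw [e1]
        simp [hw']
  have h1 : ∀ (l : List ℕ) (p : Bool × List ℕ), rawEval y (l.map fun _ => p) =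
      l.length * ((sgn p.1 : ℝ) * (p.2.map y).prod) := by
    intro l p
    induction l with
    | nil => simp [rawEval]
    | cons a l ih =>
      have e : rawEval y ((a :: l).map fun _ => p) = (sgn p.1 : ℝ) * (p.2.map y).prod +
          rawEval y (l.map fun _ => p) := by simp [rawEval]
      rw [e, ih, List.length_cons]
      push_cast
      ring
  unfold tRaw
  rw [h1, h3 16 _ (by omega)]
  have h2 : ((2 * t.1.natAbs : ℕ) : ℝ) * (sgn (decide (t.1 < 0)) : ℝ) = 2 * (t.1 : ℝ) := by
    rw [Nat.cast_mul, Nat.cast_natAbs]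
    by_cases h : t.1 < 0
    · rw [abs_of_neg h]
      simp only [h, decide_true, sgn, if_true]
      push_cast
      ring
    · rw [abs_of_nonneg (not_lt.1 h)]
      simp only [h, decide_false, sgn, Bool.false_eq_true, if_false]
      push_cast
      ring
  simp only [List.map_cons, List.map_nil, List.prod_cons, List.prod_nil]
  unfold tev bev
  calc ((2 * t.1.natAbs : ℕ) : ℝ) * ((sgn (decide (t.1 < 0)) : ℝ) * (y t.2.1 * (y t.2.2 * 1)))
      = (((2 * t.1.natAbs : ℕ) : ℝ) * (sgn (decide (t.1 < 0)) : ℝ)) * (y t.2.1 * y t.2.2) := by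
        ring
    _ = _ := by rw [h2]; ring

theorem rawEval_gRaw (y : ℕ → ℝ) {n : ℕ} {g : QC} (hg : GOk n g) :
    rawEval y (gRaw g) = gev y y g := by
  obtain ⟨⟨a1, _, _⟩, ⟨b1, _, _⟩, ⟨c1, _, _⟩⟩ := hg
  unfold gRaw gev
  rw [rawEval_append, rawEval_append, rawEval_tRaw y _ a1, rawEval_tRaw y _ b1,
    rawEval_tRaw y _ c1]
  ring

theorem rawEval_posSq (y : ℕ → ℝ) (q : List (Bool × List ℕ)) :
    rawEval y (posSq q) = (rawEval y q) ^ 2 := by
  have h1 : ∀ (p : Bool × List ℕ) (q : List (Bool × List ℕ)),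
      rawEval y (q.map fun p' => (xor p.1 p'.1, p.2 ++ p'.2)) =
        ((sgn p.1 : ℝ) * (p.2.map y).prod) * rawEval y q := by
    intro p q
    induction q with
    | nil => simp [rawEval]
    | cons p' q ih =>
      have e : rawEval y (p' :: q) = (sgn p'.1 : ℝ) * (p'.2.map y).prod + rawEval y q := by
        simp [rawEval]
      have e' : rawEval y ((p' :: q).map fun p' => (xor p.1 p'.1, p.2 ++ p'.2)) =
          (sgn (xor p.1 p'.1) : ℝ) * ((p.2 ++ p'.2).map y).prod +
          rawEval y (q.map fun p' => (xor p.1 p'.1, p.2 ++ p'.2)) := by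
        simp [rawEval]
      rw [e, e', ih, List.map_append, List.prod_append]
      have hs : (sgn (xor p.1 p'.1) : ℝ) = (sgn p.1 : ℝ) * (sgn p'.1 : ℝ) := by
        cases p.1 <;> cases p'.1 <;> simp [sgn]
      rw [hs]
      ring
  have h2 : ∀ q' : List (Bool × List ℕ),
      rawEval y (q'.flatMap fun p => q.map fun p' => (xor p.1 p'.1, p.2 ++ p'.2)) =
        rawEval y q' * rawEval y q := by
    intro q'
    induction q' with
    | nil => simp [rawEval]
    | cons p q' ih =>
      have e : rawEval y (p :: q') = (sgn p.1 : ℝ) * (p.2.map y).prod + rawEval y q' := by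
        simp [rawEval]
      rw [List.flatMap_cons, rawEval_append, ih, h1, e]
      ring
  unfold posSq
  rw [h2]
  ring

theorem rawEval_nRaw (y : ℕ → ℝ) (T : List ER.Con) : rawEval y (nRaw T) =
    ((nsys T).map fun g => gev y y g ^ 2).sum - tev y y (hform T) ^ 2 := by
  have key : ∀ G : List QC, (∀ g ∈ G, GOk (nn T) g) →
      rawEval y (G.flatMap fun g => posSq (gRaw g)) = (G.map fun g => gev y y g ^ 2).sum := by
    intro G
    induction G with
    | nil => intro _; simp [rawEval]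
    | cons g G ih =>
      intro hG
      rw [List.flatMap_cons, rawEval_append, ih fun g hg => hG g (List.mem_cons_of_mem _ hg),
        rawEval_posSq, List.map_cons, List.sum_cons, rawEval_gRaw y (hG g List.mem_cons_self)]
  unfold nRaw
  rw [rawEval_append, key _ (nsys_ok T), rawEval_negSq, rawEval_tRaw y _ (by simp [hform])]
  ring

theorem tRaw_lt {n : ℕ} {t : QT} (h1 : t.2.1 < n) (h2 : t.2.2 < n) :
    ∀ p ∈ tRaw t, p.2.length = 2 ∧ ∀ i ∈ p.2, i < n := by
  intro p hp
  unfold tRaw at hp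
  obtain ⟨_, _, rfl⟩ := List.mem_map.1 hp
  refine ⟨rfl, fun i hi => ?_⟩
  simp only [List.mem_cons, List.not_mem_nil, or_false] at hi
  rcases hi with rfl | rfl
  · exact h1
  · exact h2

theorem gRaw_lt {n : ℕ} {g : QC} (hg : GOk n g) :
    ∀ p ∈ gRaw g, p.2.length = 2 ∧ ∀ i ∈ p.2, i < n := by
  obtain ⟨⟨_, a2, a3⟩, ⟨_, b2, b3⟩, ⟨_, c2, c3⟩⟩ := hg
  intro p hp
  unfold gRaw at hp
  rcases List.mem_append.1 hp with hp | hp
  · exact tRaw_lt a2 a3 p hp
  rcases List.mem_append.1 hp with hp | hp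
  · exact tRaw_lt b2 b3 p hp
  · exact tRaw_lt c2 c3 p hp

theorem nRaw_ok (T : List ER.Con) :
    ∀ p ∈ nRaw T, p.2.length = 4 ∧ ∀ i ∈ p.2, i < nn T := by
  intro p hp
  unfold nRaw at hp
  rcases List.mem_append.1 hp with hp | hp
  · rw [List.mem_flatMap] at hp
    obtain ⟨g, hg, hp⟩ := hp
    unfold posSq at hp
    rw [List.mem_flatMap] at hp
    obtain ⟨q, hq, hp⟩ := hp
    rw [List.mem_map] at hp
    obtain ⟨q', hq', rfl⟩ := hp
    have k1 := gRaw_lt (nsys_ok T g hg) q hq
    have k2 := gRaw_lt (nsys_ok T g hg) q' hq'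
    refine ⟨by simp [k1.1, k2.1], fun i hi => ?_⟩
    rcases List.mem_append.1 hi with hi | hi
    · exact k1.2 i hi
    · exact k2.2 i hi
  · have hh : (hform T).2.1 < nn T ∧ (hform T).2.2 < nn T := by
      simp only [hform, nn, nL, ic]
      omega
    unfold negSq at hp
    rw [List.mem_flatMap] at hp
    obtain ⟨q, hq, hp⟩ := hp
    rw [List.mem_map] at hp
    obtain ⟨q', hq', rfl⟩ := hp
    have k1 := tRaw_lt hh.1 hh.2 q hq
    have k2 := tRaw_lt hh.1 hh.2 q' hq'
    refine ⟨by simp [k1.1, k2.1], fun i hi => ?_⟩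
    rcases List.mem_append.1 hi with hi | hi
    · exact k1.2 i hi
    · exact k2.2 i hi

theorem nRaw_lt (T : List ER.Con) : ∀ p ∈ nRaw T, ∀ i ∈ p.2, i < nn T := fun p hp =>
  (nRaw_ok T p hp).2

theorem nn_pos (T : List ER.Con) : 0 < nn T := by unfold nn; omega

theorem aeval_f4 {n : ℕ} (hn : 0 < n) (x : Fin n → ℝ) :
    MvPolynomial.aeval x (PolyData.toPoly n [(-1, expv n [0, 0, 0, 0])]) = - xt x 0 ^ 4 := by
  rw [aeval_toPoly]
  simp only [List.map_cons, List.map_nil, List.sum_cons, List.sum_nil]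
  rw [vval_expv x [0, 0, 0, 0] (by intro i hi; simp at hi; omega)]
  simp
  ring

theorem valid_f4 {n : ℕ} : PolyData.Valid n [(-1, expv n [0, 0, 0, 0])] := by
  constructor
  · intro t ht
    simp at ht
    subst ht
    exact ⟨by norm_num, expv_length _ _⟩
  · simp

/-- The projection property for the polynomials of a system. -/
def PProj (T : List ER.Con) : Prop :=
  ∃ (A : Matrix (Fin (nn T)) (Fin (nn T)) ℝ) (b : Fin (nn T) → ℝ), ∀ x : Fin (nn T) → ℝ,
    MvPolynomial.aeval x (PolyData.toPoly (nn T) [(-1, expv (nn T) [0, 0, 0, 0])]) =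
      MvPolynomial.aeval (A.mulVec x + b) ((collect (nn T) (nRaw T)).toPoly (nn T))

theorem pproj_iff (T : List ER.Con) : PProj T ↔
    ∃ (A : Matrix (Fin (nn T)) (Fin (nn T)) ℝ) (b : Fin (nn T) → ℝ), ∀ x : Fin (nn T) → ℝ,
      - xt x 0 ^ 4 = rawEval (xt (A.mulVec x + b)) (nRaw T) := by
  unfold PProj
  refine exists_congr fun A => exists_congr fun b => forall_congr' fun x => ?_
  rw [aeval_f4 (nn_pos T), aeval_collect _ (nRaw_lt T)]

/-- The matrix all of whose columns except the first one vanish. -/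
noncomputable def pm (n : ℕ) (p : ℕ → ℝ) (r : ℝ) : Matrix (Fin n) (Fin n) ℝ :=
  Matrix.of fun i j => if (j : ℕ) = 0 then p i / r else 0

theorem xt_pm {n : ℕ} (hn0 : 0 < n) (p : ℕ → ℝ) (r : ℝ) (x : Fin n → ℝ) {i : ℕ} (hi : i < n) :
    xt ((pm n p r).mulVec x + 0) i = p i / r * xt x 0 := by
  rw [xt_of_lt _ hi, add_zero, xt_of_lt x hn0]
  simp only [Matrix.mulVec, dotProduct, pm, Matrix.of_apply]
  rw [Finset.sum_eq_single (⟨0, hn0⟩ : Fin n)]
  · simp
  · intro j _ hj
    have : (j : ℕ) ≠ 0 := fun h => hj (Fin.ext h)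
    rw [if_neg this, zero_mul]
  · intro h
    exact absurd (Finset.mem_univ _) h

theorem pproj_of {T : List ER.Con} {p : ℕ → ℝ} (hp : ∀ g ∈ nsys T, gev p p g = 0)
    (hh : 0 < tev p p (hform T)) : PProj T := by
  rw [pproj_iff]
  have hn0 : 0 < nn T := nn_pos T
  have hh2 : (hform T).2.1 < nn T ∧ (hform T).2.2 < nn T := by
    simp only [hform, nn, nL, ic]
    omega
  have hok := nsys_ok T
  have hraw := fun y => rawEval_nRaw y T
  generalize nn T = n at *
  set r := Real.sqrt (tev p p (hform T)) with hr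
  have hr0 : 0 < r := Real.sqrt_pos.2 hh
  have hr2 : r ^ 2 = tev p p (hform T) := Real.sq_sqrt hh.le
  refine ⟨pm n p r, 0, fun x => ?_⟩
  have hAx : ∀ i < n, xt ((pm n p r).mulVec x + 0) i = p i / r * xt x 0 := fun i hi =>
    xt_pm hn0 p r x hi
  generalize xt ((pm n p r).mulVec x + 0) = z at *
  rw [hraw]
  have htev : ∀ t : QT, t.2.1 < n → t.2.2 < n →
      tev z z t = tev p p t * (xt x 0 ^ 2 / r ^ 2) := by
    intro t h1 h2
    unfold tev bev
    rw [hAx _ h1, hAx _ h2]
    field_simp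
  have hg0 : ((nsys T).map fun g => gev z z g ^ 2).sum = 0 := by
    apply List.sum_eq_zero
    intro s hs
    obtain ⟨g, hg, rfl⟩ := List.mem_map.1 hs
    obtain ⟨⟨_, a2, a3⟩, ⟨_, b2, b3⟩, ⟨_, c2, c3⟩⟩ := hok g hg
    have e : gev z z g = gev p p g * (xt x 0 ^ 2 / r ^ 2) := by
      unfold gev
      rw [htev _ a2 a3, htev _ b2 b3, htev _ c2 c3]
      ring
    rw [e, hp g hg]
    norm_num
  rw [hg0, htev _ hh2.1 hh2.2, ← hr2]
  have : r ^ 2 * (xt x 0 ^ 2 / r ^ 2) = xt x 0 ^ 2 := by
    field_simp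
  rw [this]
  ring

theorem neg_of_pproj {T : List ER.Con} (h : PProj T) : ∃ x, Neg T x := by
  rw [pproj_iff] at h
  obtain ⟨A, b, h1⟩ := h
  have hn0 : 0 < nn T := nn_pos T
  have h2 := h1 (Pi.single ⟨0, hn0⟩ 1)
  rw [rawEval_nRaw] at h2
  have h3 : xt (Pi.single (⟨0, hn0⟩ : Fin (nn T)) (1 : ℝ)) 0 = 1 := by
    rw [xt_of_lt _ hn0]
    simp
  rw [h3] at h2
  refine ⟨xt (A.mulVec (Pi.single ⟨0, hn0⟩ 1) + b), ?_⟩
  unfold Pool.Agent.R537.QN.Neg
  linarith

theorem affProj_mk (n : ℕ) (f g : PolyData) : AffineProjection (n, f, g) ↔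
    f.Valid n ∧ g.Valid n ∧ ∃ (A : Matrix (Fin n) (Fin n) ℝ) (b : Fin n → ℝ), ∀ x : Fin n → ℝ,
      MvPolynomial.aeval x (f.toPoly n) = MvPolynomial.aeval (A.mulVec x + b) (g.toPoly n) :=
  Iff.rfl

theorem proj_iff (S : List ER.Con) : AffineProjection (ninst S) ↔ PProj (bsys S) := by
  rw [ninst, affProj_mk]
  unfold PProj
  generalize bsys S = T
  exact ⟨fun h => h.2.2, fun h => ⟨valid_f4, collect_valid _ _, h⟩⟩

/-- **Correctness of the reduction**. -/
theorem sat_iff_proj (S : List ER.Con) : Sat S ↔ AffineProjection (ninst S) := by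
  rw [proj_iff]
  constructor
  · intro h
    obtain ⟨p, hp, hh⟩ := neg_of_sat h
    exact pproj_of hp hh
  · intro h
    exact (neg_iff S).1 (neg_of_pproj h)

/-! ### Polynomial time -/

section

variable {α : Type} [TEnc α]

theorem poly_tRaw {t : α → QT} (ht : Poly t) : Poly (fun a => tRaw (t a)) := by
  refine Poly.map (F := fun a _ => (decide ((t a).1 < 0), [(t a).2.1, (t a).2.2])) (Poly.filter
    (p := fun a r => decide (r < 2 * (t a).1.natAbs)) (Poly.const (List.range 16)) ?_) ?_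
  · exact Poly.decide_lt (Poly.snd Poly.id) (Poly.mul (Poly.const 2)
      (Poly.natAbs ((Poly.fst ht).comp (Poly.fst Poly.id))))
  · exact Poly.pair (poly_isNeg ((Poly.fst ht).comp (Poly.fst Poly.id)))
      (Poly.cons ((Poly.fst (Poly.snd ht)).comp (Poly.fst Poly.id))
        (Poly.cons ((Poly.snd (Poly.snd ht)).comp (Poly.fst Poly.id)) (Poly.const [])))

theorem poly_gRaw {g : α → QC} (hg : Poly g) : Poly (fun a => gRaw (g a)) :=
  Poly.append (poly_tRaw (Poly.fst hg)) (Poly.append (poly_tRaw (Poly.fst (Poly.snd hg)))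
    (poly_tRaw (Poly.snd (Poly.snd hg))))

theorem poly_posSq {q : α → List (Bool × List ℕ)} (hq : Poly q) :
    Poly (fun a => posSq (q a)) := by
  refine Poly.flatMap
    (F := fun a p => (q a).map fun p' => (xor p.1 p'.1, p.2 ++ p'.2)) hq ?_
  refine Poly.map
    (F := fun (x : α × Bool × List ℕ) p' => (xor x.2.1 p'.1, x.2.2 ++ p'.2))
    (hq.comp (Poly.fst Poly.id)) ?_
  exact Poly.pair (Poly.xor (Poly.fst (Poly.snd (Poly.fst Poly.id)))
    (Poly.fst (Poly.snd Poly.id)))
    (Poly.append (Poly.snd (Poly.snd (Poly.fst Poly.id))) (Poly.snd (Poly.snd Poly.id)))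

theorem poly_nRaw {T : α → List ER.Con} (hT : Poly T) : Poly (fun a => nRaw (T a)) := by
  refine Poly.append ?_ (poly_negSq (poly_tRaw (poly_hform hT)))
  exact Poly.flatMap (F := fun _ g => posSq (gRaw g)) (poly_nsys hT)
    (poly_posSq (poly_gRaw (Poly.snd Poly.id)))

theorem poly_ninst {S : α → List ER.Con} (hS : Poly S) : Poly (fun a => ninst (S a)) := by
  have hT := poly_bsys hS
  refine Poly.pair (upoly_nn hT).toPoly (Poly.pair ?_ ?_)
  · exact Poly.cons (Poly.pair (Poly.const (-1)) (poly_expv (upoly_nn hT) (Poly.const _)))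
      (Poly.const [])
  · exact poly_collect (upoly_nn hT) (poly_nRaw hT)

end

theorem powerInstance_mk (n : ℕ) (f g : PolyData) : PowerInstance (n, f, g) ↔
    1 ≤ n ∧ f = [(-1, 4 :: List.replicate (n - 1) 0)] ∧ ∀ t ∈ g, t.2.sum = 4 := Iff.rfl

theorem expv_f4 {n : ℕ} (hn : 1 ≤ n) : expv n [0, 0, 0, 0] = 4 :: List.replicate (n - 1) 0 := by
  obtain ⟨m, rfl⟩ := Nat.exists_eq_add_of_le hn
  apply List.ext_getElem
  · simp [expv]; omega
  · intro i h1 h2
    simp only [expv, List.getElem_map, List.getElem_range]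
    rcases i with _ | i
    · rfl
    · simp

theorem ninst_power (S : List ER.Con) : PowerInstance (ninst S) := by
  rw [ninst, powerInstance_mk]
  generalize bsys S = T
  refine ⟨nn_pos T, ?_, ?_⟩
  · rw [expv_f4 (nn_pos T)]
  · exact collect_deg _ (nRaw_lt T) fun p hp => (nRaw_ok T p hp).1

theorem power_hard : ERHardWithin PowerInstance AffineProjection :=
  ERHardWithin.of_sys (poly_ninst Poly.id) ninst_power sat_iff_proj

end Pool.Agent.NPC.R537QN
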