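import Pool.Agent.H78R3.TSV.Time
import Pool.Agent.ER.GapSys

/-!
# Quartic forms with negative values

A system of constraints `x = 1`, `x + y = z`, `x y = z` is turned into a list of integer quadratic
forms `g` and a further quadratic form `h` such that `∑ g(x)² < h(x)²` for some real `x` if and
only if the system is solvable.

The system is first written with small solutions only (`bsys`).  All variables are bounded with the
help of slack variables, and `h` is the product of the homogenizing variable and of the last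
variable of a chain `e_0 = 1/8`, `e_{j+1} = e_j²`.  If `∑ g(x)² < h(x)²` then the value of the last
variable is doubly exponentially small but not zero, and the equations hold up to a doubly
exponentially small error; so they are solvable by the gap theorem.
-/

namespace Pool.Agent.R537.QN

open Finset Pool.Agent.NPC Pool.Agent.NPC.ER Pool.Agent.H78R3.TSV

/-- The length of the chain. -/
def mM (T : List ER.Con) : ℕ := gapK T.length

/-- The number of bounded variables. -/
def nL (T : List ER.Con) : ℕ := (svars T).length + 1 + mM T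

/-- The index of the `j`-th variable of the chain. -/
def ic (T : List ER.Con) (j : ℕ) : ℕ := (svars T).length + 1 + j

/-- The bound `8 x² + 8 s² = x₀²`. -/
def slack8 (L r : ℕ) : QC := ((8, r + 1, r + 1), (8, L + 1 + r, L + 1 + r), (-1, 0, 0))

/-- The first equation of the chain. -/
def base (T : List ER.Con) : QC := ((8, ic T 0, 0), (-1, 0, 0), (0, 0, 0))

/-- The other equations of the chain. -/
def chain (T : List ER.Con) (j : ℕ) : QC :=
  ((2, ic T j, ic T j), (-2, ic T (j + 1), 0), (0, 0, 0))

/-- The quadratic forms. -/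
def nsys (T : List ER.Con) : List QC :=
  base T :: (T.map (hcon (svars T)) ++ ((List.range (mM T)).map (chain T) ++
    (List.range (nL T)).map (slack8 (nL T))))

/-- The number of variables. -/
def nn (T : List ER.Con) : ℕ := 2 * nL T + 1

/-- The special form. -/
def hform (T : List ER.Con) : QT := (1, ic T (mM T), 0)

/-- The decisive inequality. -/
def Neg (T : List ER.Con) (x : ℕ → ℝ) : Prop :=
  ((nsys T).map fun g => gev x x g ^ 2).sum < tev x x (hform T) ^ 2

theorem nsys_ok (T : List ER.Con) : ∀ g ∈ nsys T, GOk (nn T) g := by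
  intro g hg
  unfold nsys at hg
  rw [List.mem_cons, List.mem_append, List.mem_append, List.mem_map, List.mem_map,
    List.mem_map] at hg
  rcases hg with rfl | ⟨c, hc, rfl⟩ | ⟨r, hr, rfl⟩ | ⟨r, hr, rfl⟩
  · refine ⟨⟨by simp [base], ?_, ?_⟩, ⟨by simp [base], ?_, ?_⟩, ⟨by simp [base], ?_, ?_⟩⟩ <;>
      simp only [base, nn, nL, ic] <;> omega
  · cases c with
    | one i =>
      have h1 := ix_lt hc (i := i) (by simp [Con.vars])
      refine ⟨⟨by simp [hcon], ?_, ?_⟩, ⟨by simp [hcon], ?_, ?_⟩, ⟨by simp [hcon], ?_, ?_⟩⟩ <;>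
        simp only [hcon, nn, nL] <;> omega
    | add i j k =>
      have h1 := ix_lt hc (i := i) (by simp [Con.vars])
      have h2 := ix_lt hc (i := j) (by simp [Con.vars])
      have h3 := ix_lt hc (i := k) (by simp [Con.vars])
      refine ⟨⟨by simp [hcon], ?_, ?_⟩, ⟨by simp [hcon], ?_, ?_⟩, ⟨by simp [hcon], ?_, ?_⟩⟩ <;>
        simp only [hcon, nn, nL] <;> omega
    | mul i j k =>
      have h1 := ix_lt hc (i := i) (by simp [Con.vars])
      have h2 := ix_lt hc (i := j) (by simp [Con.vars])
      have h3 := ix_lt hc (i := k) (by simp [Con.vars])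
      refine ⟨⟨by simp [hcon], ?_, ?_⟩, ⟨by simp [hcon], ?_, ?_⟩, ⟨by simp [hcon], ?_, ?_⟩⟩ <;>
        simp only [hcon, nn, nL] <;> omega
  · have := List.mem_range.1 hr
    refine ⟨⟨by simp [chain], ?_, ?_⟩, ⟨by simp [chain], ?_, ?_⟩, ⟨by simp [chain], ?_, ?_⟩⟩ <;>
      simp only [chain, nn, nL, ic] <;> omega
  · have := List.mem_range.1 hr
    refine ⟨⟨by simp [slack8], ?_, ?_⟩, ⟨by simp [slack8], ?_, ?_⟩,
      ⟨by simp [slack8], ?_, ?_⟩⟩ <;> simp only [slack8, nn, nL] at * <;> omega

theorem nsys_ne_nil (T : List ER.Con) : nsys T ≠ [] := by simp [nsys]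

theorem sum_sq_nonneg (x : ℕ → ℝ) (G : List QC) : 0 ≤ (G.map fun g => gev x x g ^ 2).sum := by
  apply List.sum_nonneg
  intro r hr
  obtain ⟨g, _, rfl⟩ := List.mem_map.1 hr
  positivity

theorem sq_le_sum (x : ℕ → ℝ) {G : List QC} {g : QC} (hg : g ∈ G) :
    gev x x g ^ 2 ≤ (G.map fun g => gev x x g ^ 2).sum := by
  induction G with
  | nil => simp at hg
  | cons a G ih =>
    rw [List.map_cons, List.sum_cons]
    have h0 := sum_sq_nonneg x G
    rcases List.mem_cons.1 hg with rfl | hg
    · linarith
    · have := ih hg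
      have : 0 ≤ gev x x a ^ 2 := by positivity
      linarith

/-- **Soundness.** -/
theorem sat_of_neg {S : List ER.Con} {x : ℕ → ℝ} (hx : Neg (bsys S) x) : Sat S := by
  set T := bsys S with hT
  set V := svars T with hV
  set N := V.length with hN
  set M := mM T with hM
  have hE : tev x x (hform T) = 2 * (x (N + 1 + M) * x 0) := by
    simp only [tev, bev, hform, ic, ← hV, ← hN, ← hM]
    push_cast
    ring
  have hlt : ∀ g ∈ nsys T, |gev x x g| < 2 * |x (N + 1 + M) * x 0| := by
    intro g hg
    have h1 : gev x x g ^ 2 < (2 * (x (N + 1 + M) * x 0)) ^ 2 := by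
      rw [← hE]
      exact lt_of_le_of_lt (sq_le_sum x hg) hx
    have h2 := sq_lt_sq.1 h1
    rwa [abs_mul, abs_two] at h2
  have hx0 : x 0 ≠ 0 := by
    intro h0
    have := hlt (base T) (by simp [nsys])
    rw [h0, mul_zero, abs_zero, mul_zero] at this
    exact absurd this (not_lt.2 (abs_nonneg _))
  obtain ⟨y, hy⟩ : ∃ y : ℕ → ℝ, ∀ i, x i = y i * x 0 := ⟨fun i => x i / x 0, fun i => by
    rw [div_mul_cancel₀ _ hx0]⟩
  obtain ⟨δ, hδ⟩ : ∃ δ, δ = |y (N + 1 + M)| := ⟨_, rfl⟩
  have hs : 0 < x 0 ^ 2 := by positivity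
  have hδ0 : 0 ≤ δ := by rw [hδ]; exact abs_nonneg _
  -- the inequalities after division by `x₀²`
  have key : ∀ g ∈ nsys T, ∀ v : ℝ, gev x x g = 2 * v * x 0 ^ 2 → |v| < δ := by
    intro g hg v hv
    have h1 := hlt g hg
    rw [hv, hy (N + 1 + M)] at h1
    have e1 : |2 * v * x 0 ^ 2| = 2 * |v| * x 0 ^ 2 := by
      rw [abs_mul, abs_mul, abs_two, abs_of_pos hs]
    have e2 : |y (N + 1 + M) * x 0 * x 0| = δ * x 0 ^ 2 := by
      rw [hδ, mul_assoc, abs_mul, ← sq, abs_of_pos hs]
    rw [e1, e2] at h1
    have h2 : (2 * |v|) * x 0 ^ 2 < (2 * δ) * x 0 ^ 2 := by linarith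
    have := lt_of_mul_lt_mul_right h2 hs.le
    linarith
  have hslack : ∀ r < N + 1 + M, 8 * y (r + 1) ^ 2 < 1 + δ := by
    intro r hr
    have h1 := key (slack8 (nL T) r) (by
      unfold nsys
      refine List.mem_cons_of_mem _ (List.mem_append_right _ (List.mem_append_right _ ?_))
      exact List.mem_map.2 ⟨r, List.mem_range.2 hr, rfl⟩)
      (8 * y (r + 1) ^ 2 + 8 * y (nL T + 1 + r) ^ 2 - 1) (by
        simp only [gev, tev, bev, slack8]
        rw [hy (r + 1), hy (nL T + 1 + r)]
        push_cast
        ring)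
    have h2 := (abs_lt.1 h1).2
    nlinarith [sq_nonneg (y (nL T + 1 + r))]
  have hbase : |8 * y (N + 1) - 1| < δ := by
    refine key (base T) (by simp [nsys]) _ ?_
    simp only [gev, tev, bev, base, ic, add_zero, ← hV, ← hN]
    rw [hy (N + 1)]
    push_cast
    ring
  have hchain : ∀ j < M, |y (N + 1 + j) ^ 2 - y (N + 1 + (j + 1))| < δ / 2 := by
    intro j hj
    have h1 := key (chain T j) (by
      unfold nsys
      refine List.mem_cons_of_mem _ (List.mem_append_right _ (List.mem_append_left _ ?_))
      exact List.mem_map.2 ⟨j, List.mem_range.2 hj, rfl⟩)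
      (2 * (y (N + 1 + j) ^ 2 - y (N + 1 + (j + 1)))) (by
        simp only [gev, tev, bev, chain, ic, ← hV, ← hN]
        rw [hy (N + 1 + j), hy (N + 1 + (j + 1))]
        push_cast
        ring)
    rw [abs_mul, abs_two] at h1
    linarith
  have hδpos : 0 < δ := lt_of_le_of_lt (abs_nonneg _) hbase
  have hδ2 : δ ≤ 1 / 2 := by
    have h1 := hslack (N + M) (by omega)
    have e : N + M + 1 = N + 1 + M := by omega
    rw [e] at h1
    have h2 : y (N + 1 + M) ^ 2 = δ ^ 2 := by rw [hδ, sq_abs]
    rw [h2] at h1
    by_contra h3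
    push Not at h3
    nlinarith
  -- all members of the chain are at least `δ`
  have hdown : ∀ k ≤ M, δ ≤ |y (N + 1 + (M - k))| := by
    intro k
    induction k with
    | zero => intro _; rw [Nat.sub_zero, ← hδ]
    | succ k ih =>
      intro hk
      have h1 := ih (by omega)
      have h2 := hchain (M - (k + 1)) (by omega)
      have e : M - (k + 1) + 1 = M - k := by omega
      rw [e] at h2
      set a := y (N + 1 + (M - (k + 1)))
      set b := y (N + 1 + (M - k))
      have h3 : |b| ≤ a ^ 2 + δ / 2 := by
        have := abs_lt.1 h2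
        rw [abs_le]
        constructor
        · nlinarith [sq_nonneg a]
        · linarith
      have h4 : δ / 2 ≤ a ^ 2 := by linarith
      have h5 : δ ^ 2 ≤ a ^ 2 := by nlinarith
      have := sq_le_sq.1 h5
      rwa [abs_of_nonneg hδ0] at this
  have hup : ∀ j ≤ M, 2 * |y (N + 1 + j)| ≤ (1 / 2) ^ 2 ^ j := by
    intro j
    induction j with
    | zero =>
      intro _
      have h1 := abs_lt.1 hbase
      have h2 : |y (N + 1 + 0)| ≤ 1 / 4 := by
        rw [add_zero, abs_le]
        constructor <;> linarith
      norm_num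
      linarith
    | succ j ih =>
      intro hj
      have h1 := ih (by omega)
      have h2 := hchain j (by omega)
      have h3 : δ ≤ |y (N + 1 + (j + 1))| := by
        have := hdown (M - (j + 1)) (by omega)
        have e : M - (M - (j + 1)) = j + 1 := by omega
        rwa [e] at this
      set a := y (N + 1 + j)
      set b := y (N + 1 + (j + 1))
      have h4 : |b| ≤ a ^ 2 + δ / 2 := by
        have := abs_lt.1 h2
        rw [abs_le]
        constructor
        · nlinarith [sq_nonneg a]
        · linarith
      have h5 : |b| ≤ 2 * a ^ 2 := by linarith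
      have h6 : 2 * |b| ≤ (2 * |a|) ^ 2 := by
        rw [mul_pow, sq_abs]
        linarith
      calc 2 * |b| ≤ (2 * |a|) ^ 2 := h6
        _ ≤ ((1 / 2) ^ 2 ^ j) ^ 2 := pow_le_pow_left₀ (by positivity) h1 2
        _ = (1 / 2) ^ 2 ^ (j + 1) := by rw [← pow_mul]; congr 1
  have hsmall : δ * 2 ^ 2 ^ M ≤ 1 := by
    have h1 := hup M le_rfl
    rw [← hδ] at h1
    have h2 : (0 : ℝ) < 2 ^ 2 ^ M := by positivity
    have h3 : ((1 : ℝ) / 2) ^ 2 ^ M * 2 ^ 2 ^ M = 1 := by
      rw [← mul_pow]; norm_num
    nlinarith
  -- the gap theorem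
  have hgap := holds_of_approx (S := T) (w := fun i => y (ix V i)) (by
    intro i hi
    have h1 : V.idxOf i < N := List.idxOf_lt_length_of_mem hi
    have h2 := hslack (V.idxOf i) (by omega)
    simp only [ix]
    by_contra h3
    push Not at h3
    have h4 : 1 < y (V.idxOf i + 1) ^ 2 := by
      rw [← sq_abs]
      nlinarith [abs_nonneg (y (V.idxOf i + 1))]
    linarith) (by
    intro c hc
    have h1 : |c.err fun i => y (ix V i)| < δ := by
      refine key (hcon V c) ?_ _ ?_
      · unfold nsys
        exact List.mem_cons_of_mem _ (List.mem_append_left _ (List.mem_map.2 ⟨c, hc, rfl⟩))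
      · cases c with
        | one i =>
          simp only [gev, tev, bev, hcon, Con.err]
          rw [hy (ix V i)]
          push_cast
          ring
        | add i j k =>
          simp only [gev, tev, bev, hcon, Con.err]
          rw [hy (ix V i), hy (ix V j), hy (ix V k)]
          push_cast
          ring
        | mul i j k =>
          simp only [gev, tev, bev, hcon, Con.err]
          rw [hy (ix V i), hy (ix V j), hy (ix V k)]
          push_cast
          ring
    have h2 : (0 : ℝ) < 2 ^ 2 ^ gapK T.length := by positivity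
    calc _ ≤ δ * 2 ^ 2 ^ gapK T.length := mul_le_mul_of_nonneg_right h1.le h2.le
      _ ≤ 1 := hsmall)
  obtain ⟨w', hw'⟩ := hgap
  exact sat_of_bsys hw'

/-- **Completeness.** There is even a point at which all the quadratic forms vanish. -/
theorem neg_of_sat {S : List ER.Con} (h : Sat S) : ∃ x : ℕ → ℝ,
    (∀ g ∈ nsys (bsys S), gev x x g = 0) ∧ 0 < tev x x (hform (bsys S)) := by
  obtain ⟨w, hw, hc⟩ := bsys_of_sat h
  set T := bsys S with hT
  set V := svars T with hV
  set N := V.length with hN
  set M := mM T with hM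
  have hL : nL T = N + 1 + M := rfl
  let u : ℕ → ℝ := fun r => if r < N then w (V.getD r 0) else (1 / 8) ^ 2 ^ (r - N)
  have hu : ∀ r, |u r| ≤ 1 / 8 := by
    intro r
    simp only [u]
    split_ifs with h
    · exact hw _
    · rw [abs_of_pos (by positivity)]
      calc ((1 : ℝ) / 8) ^ 2 ^ (r - N) ≤ (1 / 8) ^ 1 :=
            pow_le_pow_of_le_one (by norm_num) (by norm_num) Nat.one_le_two_pow
        _ = 1 / 8 := pow_one _
  let x : ℕ → ℝ := fun i => if i = 0 then 1 else if i < nL T + 1 then u (i - 1) else
    Real.sqrt (1 / 8 - u (i - (nL T + 1)) ^ 2)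
  have x0 : x 0 = 1 := by simp [x]
  have x1 : ∀ r < nL T, x (r + 1) = u r := by
    intro r hr
    simp only [x]
    rw [if_neg (by omega), if_pos (by omega)]
    simp
  have x2 : ∀ r < nL T, x (nL T + 1 + r) = Real.sqrt (1 / 8 - u r ^ 2) := by
    intro r hr
    simp only [x]
    rw [if_neg (by omega), if_neg (by omega)]
    congr 4
    omega
  have xi : ∀ i ∈ V, x (ix V i) = w i := by
    intro i hi
    have h1 := List.idxOf_lt_length_of_mem hi
    unfold ix
    rw [x1 _ (by omega)]
    simp only [u]
    rw [if_pos h1, List.getD_eq_getElem _ _ h1, List.getElem_idxOf h1]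
  have xc : ∀ j ≤ M, x (N + 1 + j) = (1 / 8) ^ 2 ^ j := by
    intro j hj
    have e : N + 1 + j = (N + j) + 1 := by omega
    rw [e, x1 _ (by omega)]
    simp only [u]
    rw [if_neg (by omega)]
    congr 2
    omega
  refine ⟨x, ?_, ?_⟩
  · intro g hg
    unfold nsys at hg
    rw [List.mem_cons, List.mem_append, List.mem_append, List.mem_map, List.mem_map,
      List.mem_map] at hg
    rcases hg with rfl | ⟨c, hcT, rfl⟩ | ⟨j, hj, rfl⟩ | ⟨r, hr, rfl⟩
    · simp only [gev, tev, bev, base, ic, ← hV, ← hN]
      rw [xc 0 (by omega), x0]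
      push_cast
      norm_num
    · have hh := hc c hcT
      cases c with
      | one i =>
        have e1 := xi i (mem_svars hcT (by simp [Con.vars]))
        simp only [Con.HoldsC] at hh
        simp only [gev, tev, bev, hcon]
        rw [← hV, e1, x0, hh]
        push_cast
        norm_num
      | add i j k =>
        have e1 := xi i (mem_svars hcT (by simp [Con.vars]))
        have e2 := xi j (mem_svars hcT (by simp [Con.vars]))
        have e3 := xi k (mem_svars hcT (by simp [Con.vars]))
        simp only [Con.HoldsC] at hh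
        simp only [gev, tev, bev, hcon]
        rw [← hV, e1, e2, e3, x0, ← hh]
        push_cast
        ring
      | mul i j k =>
        have e1 := xi i (mem_svars hcT (by simp [Con.vars]))
        have e2 := xi j (mem_svars hcT (by simp [Con.vars]))
        have e3 := xi k (mem_svars hcT (by simp [Con.vars]))
        simp only [Con.HoldsC] at hh
        simp only [gev, tev, bev, hcon]
        rw [← hV, e1, e2, e3, x0, ← hh]
        push_cast
        ring
    · have hj := List.mem_range.1 hj
      simp only [gev, tev, bev, chain, ic, ← hV, ← hN]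
      rw [xc j (by omega), xc (j + 1) (by omega), x0]
      have e : ((1 : ℝ) / 8) ^ 2 ^ (j + 1) = (1 / 8) ^ 2 ^ j * (1 / 8) ^ 2 ^ j := by
        rw [← pow_add]; congr 1; ring
      rw [e]
      push_cast
      ring
    · have hr := List.mem_range.1 hr
      simp only [gev, tev, bev, slack8]
      rw [x1 r hr, x2 r hr, x0]
      push_cast
      have h1 : 0 ≤ 1 / 8 - u r ^ 2 := by
        have h2 : u r ^ 2 ≤ (1 / 8) ^ 2 := by
          rw [← sq_abs]
          exact pow_le_pow_left₀ (abs_nonneg _) (hu r) 2
        have h3 : ((1 : ℝ) / 8) ^ 2 ≤ 1 / 8 := by norm_num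
        linarith
      have h2 := Real.mul_self_sqrt h1
      nlinarith
  · simp only [tev, bev, hform, ic, ← hV, ← hN, ← hM]
    rw [xc M le_rfl, x0]
    push_cast
    positivity

/-- **The quartic form `∑ g² - h²` has a negative value iff the system is solvable.** -/
theorem neg_iff (S : List ER.Con) : (∃ x, Neg (bsys S) x) ↔ Sat S := by
  constructor
  · rintro ⟨x, hx⟩
    exact sat_of_neg hx
  · intro h
    obtain ⟨x, h1, h2⟩ := neg_of_sat h
    refine ⟨x, ?_⟩
    unfold Neg
    have h3 : ((nsys (bsys S)).map fun g => gev x x g ^ 2).sum = 0 := by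
      apply List.sum_eq_zero
      intro r hr
      obtain ⟨g, hg, rfl⟩ := List.mem_map.1 hr
      rw [h1 g hg]
      norm_num
    rw [h3]
    positivity

end Pool.Agent.R537.QN
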