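import Pool.Agent.H78R3.TSV.Defs

/-!
# The spectral norm of a tensor: the decision problems
-/

namespace Pool.Agent.R537.QN

open Pool.Agent.H78R3.TSV

/-- The value `T(x,y,z) = ∑ t_{ijk} x_i y_j z_k`. -/
def tval {d : ℕ} (t : Fin d → Fin d → Fin d → ℝ) (x y z : EuclideanSpace ℝ (Fin d)) : ℝ :=
  ∑ i, ∑ j, ∑ k, t i j k * x i * y j * z k

/-- The set of the numbers `|T(x,y,z)|` for unit vectors `x`, `y`, `z`. -/
def unitValues {d : ℕ} (t : Fin d → Fin d → Fin d → ℝ) : Set ℝ :=
  {v | ∃ x y z : EuclideanSpace ℝ (Fin d), ‖x‖ = 1 ∧ ‖y‖ = 1 ∧ ‖z‖ = 1 ∧ v = |tval t x y z|}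

/-- The spectral norm of a tensor: the largest of the numbers `|T(x,y,z)|` for unit vectors
`x`, `y`, `z` (it is `0` for the empty tensor). -/
noncomputable def spectralNorm {d : ℕ} (t : Fin d → Fin d → Fin d → ℝ) : ℝ :=
  sSup (unitValues t)

/-- The decision problem **SPECTRAL-NORM-BOUND**: the input is a `d × d × d` tensor with rational
entries (a nested list; `d` is its length) and a positive rational number `σ`; the question is
whether the spectral norm of the tensor is at most `σ`. -/
def SpectralNormBound (q : List (List (List ℚ)) × ℚ) : Prop :=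
  IsCube q.1 ∧ 0 < q.2 ∧
    spectralNorm (fun i j k : Fin q.1.length => ((entry q.1 i j k : ℚ) : ℝ)) ≤ (q.2 : ℝ)

/-- The decision problem **SPECTRAL-NORM-EXCEED**: the input is a `d × d × d` tensor with rational
entries (a nested list; `d` is its length) and a positive rational number `σ`; the question is
whether the spectral norm of the tensor is larger than `σ`. -/
def SpectralNormExceed (q : List (List (List ℚ)) × ℚ) : Prop :=
  IsCube q.1 ∧ 0 < q.2 ∧
    (q.2 : ℝ) < spectralNorm (fun i j k : Fin q.1.length => ((entry q.1 i j k : ℚ) : ℝ))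

end Pool.Agent.R537.QN
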