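import Pool.Agent.R537.QN.Core
import Pool.Agent.R537.QN.Defs
import Pool.Agent.H78R3.TSV.Mem
import Pool.Agent.H612.AR

/-!
# The spectral norm of a tensor and quartic forms with negative values
-/

namespace Pool.Agent.R537.QN

open Finset Pool.Agent.NPC Pool.Agent.NPC.ER Pool.Agent.H78R3.TSV

/-- The triple sum with indices in an initial segment. -/
def tens3 (d : ℕ) (t : ℕ → ℕ → ℕ → ℝ) (x y z : ℕ → ℝ) : ℝ :=
  ∑ i ∈ range d, ∑ j ∈ range d, ∑ k ∈ range d, t i j k * x i * y j * z k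

/-- A version of `σ < ‖T‖` with vectors indexed by all natural numbers. -/
def Exc (d : ℕ) (t : ℕ → ℕ → ℕ → ℝ) (σ : ℝ) : Prop :=
  ∃ x y z : ℕ → ℝ, ∑ i ∈ range d, x i ^ 2 = 1 ∧ ∑ i ∈ range d, y i ^ 2 = 1 ∧
    ∑ i ∈ range d, z i ^ 2 = 1 ∧ σ < tens3 d t x y z

theorem tval_eq {d : ℕ} (t : ℕ → ℕ → ℕ → ℝ) (x y z : EuclideanSpace ℝ (Fin d)) (X Y Z : ℕ → ℝ)
    (hX : ∀ i : Fin d, X i = x i) (hY : ∀ i : Fin d, Y i = y i) (hZ : ∀ i : Fin d, Z i = z i) :
    tval (fun i j k : Fin d => t i j k) x y z = tens3 d t X Y Z := by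
  unfold tval tens3
  rw [← Fin.sum_univ_eq_sum_range (fun i => ∑ j ∈ range d, ∑ k ∈ range d,
    t i j k * X i * Y j * Z k)]
  simp_rw [← Fin.sum_univ_eq_sum_range (fun j => ∑ k ∈ range d, t _ j k * X _ * Y j * Z k),
    ← Fin.sum_univ_eq_sum_range (fun k => t _ _ k * X _ * Y _ * Z k), hX, hY, hZ]

theorem abs_le_one_of_norm {d : ℕ} {x : EuclideanSpace ℝ (Fin d)} (hx : ‖x‖ = 1) (i : Fin d) :
    |x i| ≤ 1 := by
  rw [norm_eq_one_iff] at hx
  have h1 : x i ^ 2 ≤ ∑ i, x i ^ 2 :=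
    Finset.single_le_sum (f := fun i => x i ^ 2) (fun i _ => sq_nonneg (x i)) (Finset.mem_univ i)
  rw [hx] at h1
  exact (sq_le_one_iff_abs_le_one _).1 h1

theorem bddAbove_unitValues {d : ℕ} (t : Fin d → Fin d → Fin d → ℝ) :
    BddAbove (unitValues t) := by
  refine ⟨∑ i, ∑ j, ∑ k, |t i j k|, ?_⟩
  rintro v ⟨x, y, z, hx, hy, hz, rfl⟩
  unfold tval
  refine (Finset.abs_sum_le_sum_abs _ _).trans (Finset.sum_le_sum fun i _ => ?_)
  refine (Finset.abs_sum_le_sum_abs _ _).trans (Finset.sum_le_sum fun j _ => ?_)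
  refine (Finset.abs_sum_le_sum_abs _ _).trans (Finset.sum_le_sum fun k _ => ?_)
  have h1 := abs_le_one_of_norm hx i
  have h2 := abs_le_one_of_norm hy j
  have h3 := abs_le_one_of_norm hz k
  rw [abs_mul, abs_mul, abs_mul]
  calc |t i j k| * |x i| * |y j| * |z k| ≤ |t i j k| * 1 * 1 * 1 := by gcongr
    _ = |t i j k| := by ring

theorem lt_spectralNorm_iff {d : ℕ} (t : ℕ → ℕ → ℕ → ℝ) {σ : ℝ} (hσ : 0 ≤ σ) :
    σ < spectralNorm (fun i j k : Fin d => t i j k) ↔ Exc d t σ := by
  constructor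
  · intro h
    have hne : (unitValues (fun i j k : Fin d => t i j k)).Nonempty := by
      by_contra h0
      rw [Set.not_nonempty_iff_eq_empty] at h0
      rw [spectralNorm, h0, Real.sSup_empty] at h
      exact absurd h (not_lt.2 hσ)
    obtain ⟨v, ⟨x, y, z, hx, hy, hz, rfl⟩, hv⟩ := exists_lt_of_lt_csSup hne h
    rw [norm_eq_one_iff] at hx hy hz
    let X : ℕ → ℝ := fun i => if h : i < d then x ⟨i, h⟩ else 0
    let Y : ℕ → ℝ := fun i => if h : i < d then y ⟨i, h⟩ else 0
    let Z : ℕ → ℝ := fun i => if h : i < d then z ⟨i, h⟩ else 0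
    have eX : ∀ i : Fin d, X i = x i := fun i => by simp [X]
    have eY : ∀ i : Fin d, Y i = y i := fun i => by simp [Y]
    have eZ : ∀ i : Fin d, Z i = z i := fun i => by simp [Z]
    have sX : ∑ i ∈ range d, X i ^ 2 = 1 := by
      rw [← Fin.sum_univ_eq_sum_range (fun i => X i ^ 2)]; simpa only [eX] using hx
    have sY : ∑ i ∈ range d, Y i ^ 2 = 1 := by
      rw [← Fin.sum_univ_eq_sum_range (fun i => Y i ^ 2)]; simpa only [eY] using hy
    have sZ : ∑ i ∈ range d, Z i ^ 2 = 1 := by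
      rw [← Fin.sum_univ_eq_sum_range (fun i => Z i ^ 2)]; simpa only [eZ] using hz
    rw [tval_eq t x y z X Y Z eX eY eZ] at hv
    rcases abs_cases (tens3 d t X Y Z) with ⟨h1, _⟩ | ⟨h1, _⟩
    · exact ⟨X, Y, Z, sX, sY, sZ, by rwa [h1] at hv⟩
    · refine ⟨fun i => - X i, Y, Z, by simpa using sX, sY, sZ, ?_⟩
      rw [h1] at hv
      have e : tens3 d t (fun i => - X i) Y Z = - tens3 d t X Y Z := by
        unfold tens3
        simp only [← Finset.sum_neg_distrib]
        refine Finset.sum_congr rfl fun i _ => Finset.sum_congr rfl fun j _ =>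
          Finset.sum_congr rfl fun k _ => by ring
      rwa [e]
  · rintro ⟨x, y, z, hx, hy, hz, h⟩
    have h1 : ∀ x : ℕ → ℝ, ∑ i ∈ range d, x i ^ 2 = 1 →
        ‖(WithLp.toLp 2 fun i : Fin d => x i : EuclideanSpace ℝ (Fin d))‖ = 1 := by
      intro x hx
      rw [norm_eq_one_iff, ← hx]
      exact Fin.sum_univ_eq_sum_range (fun i => x i ^ 2) d
    have h2 : |tval (fun i j k : Fin d => t i j k) (WithLp.toLp 2 fun i : Fin d => x i)
        (WithLp.toLp 2 fun i : Fin d => y i) (WithLp.toLp 2 fun i : Fin d => z i)| ≤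
        spectralNorm (fun i j k : Fin d => t i j k) :=
      le_csSup (bddAbove_unitValues _) ⟨_, _, _, h1 x hx, h1 y hy, h1 z hz, rfl⟩
    rw [tval_eq t _ _ _ x y z (fun _ => rfl) (fun _ => rfl) (fun _ => rfl)] at h2
    exact (h.trans_le (le_abs_self _)).trans_le h2

theorem exceed_iff (q : List (List (List ℚ)) × ℚ) : SpectralNormExceed q ↔ IsCube q.1 ∧
    0 < q.2 ∧ Exc q.1.length (fun i j k => ((entry q.1 i j k : ℚ) : ℝ)) (q.2 : ℝ) := by
  unfold SpectralNormExceed
  refine and_congr_right fun _ => and_congr_right fun h => ?_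
  exact lt_spectralNorm_iff (fun i j k => ((entry q.1 i j k : ℚ) : ℝ)) (by exact_mod_cast h.le)

theorem exc_congr {d : ℕ} {t t' : ℕ → ℕ → ℕ → ℝ} {σ : ℝ}
    (h : ∀ i < d, ∀ j < d, ∀ k < d, t i j k = t' i j k) : Exc d t σ ↔ Exc d t' σ := by
  have e : ∀ x y z : ℕ → ℝ, tens3 d t x y z = tens3 d t' x y z := by
    intro x y z
    unfold tens3
    exact Finset.sum_congr rfl fun i hi => Finset.sum_congr rfl fun j hj =>
      Finset.sum_congr rfl fun k hk => by
        rw [h i (Finset.mem_range.1 hi) j (Finset.mem_range.1 hj) k (Finset.mem_range.1 hk)]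
  unfold Exc
  simp_rw [e]

/-! ### Tensors of lists of forms -/

theorem tens3_ten {d : ℕ} {L : List (List QT)} (hF : ∀ f ∈ L, FOk d f) (x y z : ℕ → ℝ) :
    tens3 d (fun i j k => (ten L i j k : ℝ)) x y z =
      ∑ k ∈ range d, fev x y (L.getD k []) * z k := by
  unfold tens3
  have h1 : ∀ k ∈ range d, fev x y (L.getD k []) * z k =
      ∑ i ∈ range d, ∑ j ∈ range d, (ten L i j k : ℝ) * x i * y j * z k := by
    intro k _
    rw [← sum_cf d _ (fok_getD hF k), Finset.sum_mul]
    refine Finset.sum_congr rfl fun i _ => ?_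
    rw [Finset.sum_mul]
    rfl
  calc ∑ i ∈ range d, ∑ j ∈ range d, ∑ k ∈ range d, (ten L i j k : ℝ) * x i * y j * z k
      = ∑ i ∈ range d, ∑ k ∈ range d, ∑ j ∈ range d, (ten L i j k : ℝ) * x i * y j * z k :=
        Finset.sum_congr rfl fun i _ => Finset.sum_comm
    _ = ∑ k ∈ range d, ∑ i ∈ range d, ∑ j ∈ range d, (ten L i j k : ℝ) * x i * y j * z k :=
        Finset.sum_comm
    _ = _ := Finset.sum_congr rfl fun k hk => (h1 k hk).symm

/-- The best third vector. -/
theorem exc_ten {d : ℕ} {L : List (List QT)} (hF : ∀ f ∈ L, FOk d f) (hL : L.length ≤ d)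
    {σ : ℝ} (hσ : 0 ≤ σ) : Exc d (fun i j k => (ten L i j k : ℝ)) σ ↔
      ∃ x y : ℕ → ℝ, ∑ i ∈ range d, x i ^ 2 = 1 ∧ ∑ i ∈ range d, y i ^ 2 = 1 ∧
        σ ^ 2 < S x y x y L := by
  have hS : ∀ x y : ℕ → ℝ, S x y x y L = ∑ k ∈ range d, fev x y (L.getD k []) ^ 2 := by
    intro x y
    unfold S
    rw [← sum_getD L hL (fun f => fev x y f * fev x y f) (by simp)]
    exact Finset.sum_congr rfl fun k _ => by ring
  constructor
  · rintro ⟨x, y, z, hx, hy, hz, h⟩
    refine ⟨x, y, hx, hy, ?_⟩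
    rw [tens3_ten hF] at h
    have h1 := Finset.sum_mul_sq_le_sq_mul_sq (range d) (fun k => fev x y (L.getD k [])) z
    rw [hz, mul_one, ← hS] at h1
    exact lt_of_lt_of_le (pow_lt_pow_left₀ h hσ two_ne_zero) h1
  · rintro ⟨x, y, hx, hy, h⟩
    have hQ : 0 < S x y x y L := lt_of_le_of_lt (sq_nonneg σ) h
    set r := Real.sqrt (S x y x y L) with hr
    have hr0 : 0 < r := Real.sqrt_pos.2 hQ
    have hr2 : r ^ 2 = S x y x y L := Real.sq_sqrt hQ.le
    refine ⟨x, y, fun k => fev x y (L.getD k []) / r, hx, hy, ?_, ?_⟩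
    · simp_rw [div_pow]
      rw [← Finset.sum_div, ← hS, hr2, div_self hQ.ne']
    · rw [tens3_ten hF]
      have e : ∑ k ∈ range d, fev x y (L.getD k []) * (fev x y (L.getD k []) / r) = r := by
        have e1 : ∀ k, fev x y (L.getD k []) * (fev x y (L.getD k []) / r) =
            fev x y (L.getD k []) ^ 2 / r := fun k => by ring
        simp_rw [e1]
        rw [← Finset.sum_div, ← hS, ← hr2]
        field_simp
      rw [e]
      exact lt_of_pow_lt_pow_left₀ 2 hr0.le (by rw [hr2]; exact h)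

/-! ### The forms -/

/-- The forms of the tensor. -/
def sforms (T : List ER.Con) : List (List QT) :=
  forms (nn T) (nsys T) ++ (nsys T).map fun _ => [hform T]

theorem S_sforms (T : List ER.Con) (x y : ℕ → ℝ) : S x y x y (sforms T) =
    1152 * ((nsys T).length : ℝ) ^ 2 * ((∑ i ∈ range (nn T), x i ^ 2) *
      (∑ i ∈ range (nn T), y i ^ 2) + (∑ i ∈ range (nn T), x i * y i) ^ 2) -
    (nsys T).length * ((nsys T).map fun g => gev x y g ^ 2).sum +
    (nsys T).length * tev x y (hform T) ^ 2 := by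
  have h1 : ∀ l : List QC, S x y x y (l.map fun _ => [hform T]) =
      l.length * tev x y (hform T) ^ 2 := by
    intro l
    induction l with
    | nil => simp
    | cons a l ih =>
      simp only [List.map_cons, S_cons, ih, fev_cons, fev_nil, add_zero, List.length_cons]
      push_cast
      ring
  have ea : ∑ i ∈ range (nn T), x i * x i = ∑ i ∈ range (nn T), x i ^ 2 :=
    Finset.sum_congr rfl fun i _ => by ring
  have eb : ∑ i ∈ range (nn T), y i * y i = ∑ i ∈ range (nn T), y i ^ 2 :=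
    Finset.sum_congr rfl fun i _ => by ring
  have ec : ∑ i ∈ range (nn T), y i * x i = ∑ i ∈ range (nn T), x i * y i :=
    Finset.sum_congr rfl fun i _ => mul_comm _ _
  have eg : (nsys T).map (fun g => gev x y g * gev x y g) =
      (nsys T).map (fun g => gev x y g ^ 2) := List.map_congr_left fun g _ => by ring
  unfold sforms
  rw [S_append, S_forms x y x y _ _ (nsys_ok T), sum_bev, h1, ea, eb, ec, eg]
  ring

theorem fok_sforms (T : List ER.Con) : ∀ f ∈ sforms T, FOk (nn T) f := by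
  intro f hf
  unfold sforms at hf
  rcases List.mem_append.1 hf with hf | hf
  · exact fok_forms (nsys_ok T) f hf
  · obtain ⟨_, _, rfl⟩ := List.mem_map.1 hf
    intro t ht
    rw [List.mem_singleton] at ht
    subst ht
    simp only [hform, nn, nL, ic]
    omega

/-- The sum of the absolute values of the coefficients. -/
def cs (g : QC) : ℝ := |(g.1.1 : ℝ)| + |(g.2.1.1 : ℝ)| + |(g.2.2.1 : ℝ)|

theorem cs_le {T : List ER.Con} {g : QC} (hg : g ∈ nsys T) : cs g ≤ 17 := by
  unfold nsys at hg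
  rw [List.mem_cons, List.mem_append, List.mem_append, List.mem_map, List.mem_map,
    List.mem_map] at hg
  rcases hg with rfl | ⟨c, hc, rfl⟩ | ⟨r, hr, rfl⟩ | ⟨r, hr, rfl⟩
  · simp only [cs, base]; norm_num
  · cases c <;> simp only [cs, hcon] <;> norm_num
  · simp only [cs, chain]; norm_num
  · simp only [cs, slack8]; norm_num

theorem bev_bound {n : ℕ} (u : ℕ → ℝ) {p : ℕ × ℕ} (h1 : p.1 < n) (h2 : p.2 < n) :
    |bev u u p| ≤ 2 * ∑ i ∈ range n, u i ^ 2 := by
  have k : ∀ i < n, u i ^ 2 ≤ ∑ i ∈ range n, u i ^ 2 := fun i hi =>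
    Finset.single_le_sum (f := fun i => u i ^ 2) (fun i _ => sq_nonneg (u i))
      (Finset.mem_range.2 hi)
  have k1 := k _ h1
  have k2 := k _ h2
  unfold bev
  rw [abs_le]
  constructor
  · nlinarith [sq_nonneg (u p.1 + u p.2)]
  · nlinarith [sq_nonneg (u p.1 - u p.2)]

theorem gev_bound {n : ℕ} (u : ℕ → ℝ) {g : QC} (hg : GOk n g) (hc : cs g ≤ 17) :
    |gev u u g| ≤ 34 * ∑ i ∈ range n, u i ^ 2 := by
  obtain ⟨⟨_, a2, a3⟩, ⟨_, b2, b3⟩, ⟨_, c2, c3⟩⟩ := hg
  set U := ∑ i ∈ range n, u i ^ 2 with hU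
  have hU0 : 0 ≤ U := Finset.sum_nonneg fun _ _ => sq_nonneg _
  have t : ∀ t : QT, t.2.1 < n → t.2.2 < n → |tev u u t| ≤ |(t.1 : ℝ)| * (2 * U) := by
    intro t h1 h2
    unfold tev
    rw [abs_mul]
    exact mul_le_mul_of_nonneg_left (bev_bound u h1 h2) (abs_nonneg _)
  have t1 := t _ a2 a3
  have t2 := t _ b2 b3
  have t3 := t _ c2 c3
  unfold gev
  calc |tev u u g.1 + tev u u g.2.1 + tev u u g.2.2|
      ≤ |tev u u g.1| + |tev u u g.2.1| + |tev u u g.2.2| := abs_add_three _ _ _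
    _ ≤ cs g * (2 * U) := by unfold cs; linarith
    _ ≤ 17 * (2 * U) := mul_le_mul_of_nonneg_right hc (by linarith)
    _ = 34 * U := by ring

theorem tev_polar (x y : ℕ → ℝ) (t : QT) : tev x y t =
    tev (fun i => (x i + y i) / 2) (fun i => (x i + y i) / 2) t -
    tev (fun i => (x i - y i) / 2) (fun i => (x i - y i) / 2) t := by
  unfold tev bev
  ring

theorem gev_polar (x y : ℕ → ℝ) (g : QC) : gev x y g =
    gev (fun i => (x i + y i) / 2) (fun i => (x i + y i) / 2) g -
    gev (fun i => (x i - y i) / 2) (fun i => (x i - y i) / 2) g := by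
  unfold gev
  rw [tev_polar x y g.1, tev_polar x y g.2.1, tev_polar x y g.2.2]
  ring

theorem sum_polar_le {G : List QC} (φ ψ : QC → ℝ) (K : ℝ) (h : ∀ g ∈ G, |φ g| * |ψ g| ≤ K) :
    (G.map fun g => φ g ^ 2).sum + (G.map fun g => ψ g ^ 2).sum - 2 * G.length * K ≤
      (G.map fun g => (φ g - ψ g) ^ 2).sum := by
  induction G with
  | nil => simp
  | cons a G ih =>
    have h1 := ih fun g hg => h g (List.mem_cons_of_mem _ hg)
    have h2 := h a List.mem_cons_self
    rw [← abs_mul] at h2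
    have h3 := (abs_le.1 h2).2
    simp only [List.map_cons, List.sum_cons, List.length_cons]
    push_cast
    nlinarith

theorem arith {m a b c U V P Q R A B : ℝ} (hm : 1 ≤ m) (hU0 : 0 ≤ U) (hV0 : 0 ≤ V)
    (hUV : 4 * (U * V) ≤ 2 - a * b - c ^ 2) (nu : A ^ 2 ≤ P) (nv : B ^ 2 ≤ Q)
    (hg : P + Q - 2 * m * (34 * U * (34 * V)) ≤ R) (b1 : |A| ≤ 2 * U) (b2 : |B| ≤ 2 * V)
    (h : (48 * m) ^ 2 < 1152 * m ^ 2 * (a * b + c ^ 2) - m * R + m * (A - B) ^ 2) : False := by
  have b3 : |A * B| ≤ 2 * U * (2 * V) := by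
    rw [abs_mul]
    exact mul_le_mul b1 b2 (abs_nonneg _) (by positivity)
  have b4 := (abs_le.1 b3).1
  have hUV0 : 0 ≤ U * V := mul_nonneg hU0 hV0
  have k1 : 1152 * m ^ 2 * (2 - a * b - c ^ 2) < m * ((A - B) ^ 2 - R) := by linarith
  have k2 : 1152 * m * (2 - a * b - c ^ 2) < (A - B) ^ 2 - R := by
    have : m * (1152 * m * (2 - a * b - c ^ 2)) < m * ((A - B) ^ 2 - R) := by
      calc m * (1152 * m * (2 - a * b - c ^ 2)) = 1152 * m ^ 2 * (2 - a * b - c ^ 2) := by ring
        _ < _ := k1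
    exact lt_of_mul_lt_mul_left this (by linarith)
  have k3 : (A - B) ^ 2 - R ≤ 8 * (U * V) + 2312 * m * (U * V) := by linarith
  have k4 : 4608 * m * (U * V) ≤ 1152 * m * (2 - a * b - c ^ 2) := by
    have : 1152 * m * (4 * (U * V)) ≤ 1152 * m * (2 - a * b - c ^ 2) :=
      mul_le_mul_of_nonneg_left hUV (by linarith)
    linarith
  have k5 : U * V ≤ m * (U * V) := le_mul_of_one_le_left hUV0 hm
  linarith

/-- **The main equivalence.** -/
theorem main_iff (T : List ER.Con) {d : ℕ} (hd : nn T ≤ d) : (∃ x y : ℕ → ℝ,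
    ∑ i ∈ range d, x i ^ 2 = 1 ∧ ∑ i ∈ range d, y i ^ 2 = 1 ∧
      (48 * ((nsys T).length : ℝ)) ^ 2 < S x y x y (sforms T)) ↔ ∃ x, Neg T x := by
  have hm : (1 : ℝ) ≤ (nsys T).length := by
    have : 0 < (nsys T).length := List.length_pos_iff.2 (nsys_ne_nil T)
    exact_mod_cast this
  set m : ℝ := ((nsys T).length : ℝ) with hmdef
  have hh : (hform T).2.1 < nn T ∧ (hform T).2.2 < nn T := by
    simp only [hform, nn, nL, ic]
    omega
  constructor
  · rintro ⟨x, y, hx, hy, h⟩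
    rw [S_sforms] at h
    set a := ∑ i ∈ range (nn T), x i ^ 2 with ha
    set b := ∑ i ∈ range (nn T), y i ^ 2 with hb
    set c := ∑ i ∈ range (nn T), x i * y i with hc
    rw [← hmdef] at h
    have hsub : range (nn T) ⊆ range d := Finset.range_subset_range.2 hd
    have ha1 : a ≤ 1 := by
      rw [← hx]
      exact Finset.sum_le_sum_of_subset_of_nonneg hsub (fun _ _ _ => sq_nonneg _)
    have hb1 : b ≤ 1 := by
      rw [← hy]
      exact Finset.sum_le_sum_of_subset_of_nonneg hsub (fun _ _ _ => sq_nonneg _)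
    have ha0 : 0 ≤ a := Finset.sum_nonneg (fun _ _ => sq_nonneg _)
    have hb0 : 0 ≤ b := Finset.sum_nonneg (fun _ _ => sq_nonneg _)
    by_contra hno
    push Not at hno
    set u : ℕ → ℝ := fun i => (x i + y i) / 2 with hu
    set v : ℕ → ℝ := fun i => (x i - y i) / 2 with hv
    have nu : tev u u (hform T) ^ 2 ≤ ((nsys T).map fun g => gev u u g ^ 2).sum :=
      not_lt.1 (hno u)
    have nv : tev v v (hform T) ^ 2 ≤ ((nsys T).map fun g => gev v v g ^ 2).sum :=
      not_lt.1 (hno v)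
    set U := ∑ i ∈ range (nn T), u i ^ 2 with hU
    set V := ∑ i ∈ range (nn T), v i ^ 2 with hV
    have hU0 : 0 ≤ U := Finset.sum_nonneg fun _ _ => sq_nonneg _
    have hV0 : 0 ≤ V := Finset.sum_nonneg fun _ _ => sq_nonneg _
    have eU : U = (a + b + 2 * c) / 4 := by
      rw [hU, ha, hb, hc, Finset.mul_sum, ← Finset.sum_add_distrib, ← Finset.sum_add_distrib,
        Finset.sum_div]
      exact Finset.sum_congr rfl fun i _ => by simp only [hu]; ring
    have eV : V = (a + b - 2 * c) / 4 := by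
      rw [hV, ha, hb, hc, Finset.mul_sum, ← Finset.sum_add_distrib, ← Finset.sum_sub_distrib,
        Finset.sum_div]
      exact Finset.sum_congr rfl fun i _ => by simp only [hv]; ring
    have hUV : 4 * (U * V) ≤ 2 - a * b - c ^ 2 := by
      rw [eU, eV]
      nlinarith
    have hg := sum_polar_le (G := nsys T) (fun g => gev u u g) (fun g => gev v v g)
      (34 * U * (34 * V)) (fun g hg => mul_le_mul
        (gev_bound u (nsys_ok T g hg) (cs_le hg)) (gev_bound v (nsys_ok T g hg) (cs_le hg))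
        (abs_nonneg _) (by positivity))
    have e1 : (nsys T).map (fun g => gev x y g ^ 2) =
        (nsys T).map (fun g => (gev u u g - gev v v g) ^ 2) :=
      List.map_congr_left fun g _ => by rw [gev_polar x y g]
    have e2 : tev x y (hform T) = tev u u (hform T) - tev v v (hform T) := tev_polar x y _
    have b1 : |tev u u (hform T)| ≤ 2 * U := by
      have := bev_bound u hh.1 hh.2
      simpa [tev, hform] using this
    have b2 : |tev v v (hform T)| ≤ 2 * V := by
      have := bev_bound v hh.1 hh.2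
      simpa [tev, hform] using this
    rw [e1, e2] at h
    rw [← hmdef] at hg
    exact arith hm hU0 hV0 hUV nu nv hg b1 b2 h
  · rintro ⟨x₀, hx₀⟩
    -- truncation and normalization
    set s := ∑ i ∈ range (nn T), x₀ i ^ 2 with hs
    have hs0 : 0 < s := by
      rcases (Finset.sum_nonneg fun i (_ : i ∈ range (nn T)) => sq_nonneg (x₀ i)).lt_or_eq with
        h | h
      · exact h
      · exfalso
        have h1 := (Finset.sum_eq_zero_iff_of_nonneg (fun i _ => sq_nonneg (x₀ i))).1 h.symm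
        have h2 : x₀ 0 = 0 := by
          have := h1 0 (Finset.mem_range.2 (by unfold nn; omega))
          exact pow_eq_zero_iff (two_ne_zero) |>.1 this
        have h3 : tev x₀ x₀ (hform T) = 0 := by
          simp [tev, bev, hform, h2]
        unfold Neg at hx₀
        rw [h3] at hx₀
        have := sum_sq_nonneg x₀ (nsys T)
        norm_num at hx₀
        linarith
    let r := Real.sqrt s
    have hr0 : 0 < r := Real.sqrt_pos.2 hs0
    have hr2 : r ^ 2 = s := Real.sq_sqrt hs0.le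
    let x : ℕ → ℝ := fun i => if i < nn T then x₀ i / r else 0
    have hxn : ∀ i < nn T, x i = x₀ i / r := fun i hi => by simp [x, hi]
    have hxo : ∀ i, nn T ≤ i → x i = 0 := fun i hi => by simp [x, not_lt.2 hi]
    have hx : ∑ i ∈ range (nn T), x i ^ 2 = 1 := by
      rw [Finset.sum_congr rfl (fun i hi => by rw [hxn i (Finset.mem_range.1 hi), div_pow])]
      rw [← Finset.sum_div, ← hs, hr2, div_self hs0.ne']
    have hxd : ∑ i ∈ range d, x i ^ 2 = 1 := by
      rw [← hx]
      symm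
      apply Finset.sum_subset (Finset.range_subset_range.2 hd)
      intro i _ hi
      rw [hxo i (not_lt.1 fun h => hi (Finset.mem_range.2 h))]
      ring
    have htev : ∀ t : QT, t.2.1 < nn T → t.2.2 < nn T → tev x x t = tev x₀ x₀ t / s := by
      intro t h1 h2
      unfold tev bev
      rw [hxn _ h1, hxn _ h2, ← hr2]
      field_simp
    have hgev : ∀ g ∈ nsys T, gev x x g = gev x₀ x₀ g / s := by
      intro g hg
      obtain ⟨⟨_, a2, a3⟩, ⟨_, b2, b3⟩, ⟨_, c2, c3⟩⟩ := nsys_ok T g hg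
      unfold gev
      rw [htev _ a2 a3, htev _ b2 b3, htev _ c2 c3]
      ring
    refine ⟨x, x, hxd, hxd, ?_⟩
    rw [S_sforms, ← hmdef]
    have e1 : ∑ i ∈ range (nn T), x i * x i = 1 := by rw [← hx]; simp only [sq]
    have e2 : ((nsys T).map fun g => gev x x g ^ 2).sum =
        ((nsys T).map fun g => gev x₀ x₀ g ^ 2).sum / s ^ 2 := by
      have : (nsys T).map (fun g => gev x x g ^ 2) =
          (nsys T).map (fun g => (s ^ 2)⁻¹ * gev x₀ x₀ g ^ 2) := List.map_congr_left fun g hg => by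
        rw [hgev g hg, div_pow]
        ring
      rw [this, List.sum_map_mul_left]
      ring
    rw [e1, hx, e2, htev _ hh.1 hh.2, div_pow]
    unfold Neg at hx₀
    have k : ((nsys T).map fun g => gev x₀ x₀ g ^ 2).sum / s ^ 2 <
        tev x₀ x₀ (hform T) ^ 2 / s ^ 2 := div_lt_div_of_pos_right hx₀ (pow_pos hs0 2)
    have k' := mul_lt_mul_of_pos_left k (lt_of_lt_of_le one_pos hm)
    linarith

end Pool.Agent.R537.QN
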