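import Pool.Agent.R537.QN.Spec

/-!
# Exceeding a bound on the spectral norm is `∃ℝ`-complete
-/

namespace Pool.Agent.NPC.R537QN

open Finset Pool.Agent.NPC Pool.Agent.NPC.ER Pool.Agent.H78R3.TSV Pool.Agent.NPC.H78TSV
open Pool.Agent.R537.QN
open Pool.Agent.NPC.H670R2

/-- The instance of a system: a tensor and a number. -/
def sinst (S : List ER.Con) : List (List (List ℚ)) × ℚ :=
  (tenL (nn (bsys S) + (sforms (bsys S)).length) (sforms (bsys S)),
    (((48 * (nsys (bsys S)).length : ℕ) : ℤ) : ℚ))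

theorem exceed_tenL (d : ℕ) (L : List (List QT)) (q : ℚ) (hq : 0 < q) :
    SpectralNormExceed (tenL d L, q) ↔ Exc d (fun i j k => (ten L i j k : ℝ)) (q : ℝ) := by
  rw [exceed_iff]
  have h3 : (tenL d L).length = d := length_tenL _ _
  simp only [h3]
  have key := exc_congr (d := d) (t := fun i j k => (ten L i j k : ℝ))
    (t' := fun i j k => ((entry (tenL d L) i j k : ℚ) : ℝ)) (σ := (q : ℝ))
    (fun i hi j hj k hk => by
      show (ten L i j k : ℝ) = ((entry (tenL d L) i j k : ℚ) : ℝ)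
      rw [entry_tenL hi hj hk]
      push_cast
      rfl)
  rw [key]
  exact ⟨fun h => h.2.2, fun h => ⟨isCube_tenL _ _, hq, h⟩⟩

theorem fok_mono {n d : ℕ} {L : List (List QT)} (h : ∀ f ∈ L, FOk n f) (hd : n ≤ d) :
    ∀ f ∈ L, FOk d f := fun f hf t ht =>
  ⟨(h f hf t ht).1.trans_le hd, (h f hf t ht).2.trans_le hd⟩

theorem sat_iff_aux (S : List ER.Con) (T : List ER.Con) (hT : (∃ x, Neg T x) ↔ Sat S) (d : ℕ)
    (h1 : nn T ≤ d) (h2 : (sforms T).length ≤ d) :
    Exc d (fun i j k => (ten (sforms T) i j k : ℝ)) (48 * ((nsys T).length : ℝ)) ↔ Sat S := by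
  have h0 : (0 : ℝ) ≤ 48 * ((nsys T).length : ℝ) := by positivity
  rw [exc_ten (fok_mono (fok_sforms T) h1) h2 h0, main_iff T h1, hT]

theorem num_pos (T : List ER.Con) : (0 : ℚ) < (((48 * (nsys T).length : ℕ) : ℤ) : ℚ) := by
  have hpos : 0 < (nsys T).length := List.length_pos_iff.2 (nsys_ne_nil T)
  exact_mod_cast (by omega : 0 < 48 * (nsys T).length)

/-- **Correctness of the reduction.** -/
theorem sat_iff_exceed (S : List ER.Con) : Sat S ↔ SpectralNormExceed (sinst S) := by
  unfold sinst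
  rw [exceed_tenL _ _ _ (num_pos _)]
  have h4 : (((((48 * (nsys (bsys S)).length : ℕ) : ℤ) : ℚ)) : ℝ) =
      48 * ((nsys (bsys S)).length : ℝ) := by
    push_cast
    ring
  rw [h4]
  exact (sat_iff_aux S (bsys S) (neg_iff S) _ (Nat.le_add_right _ _) (Nat.le_add_left _ _)).symm

/-! ### Polynomial time -/

section

variable {α : Type} [TEnc α]

theorem upoly_mM {T : α → List ER.Con} (hT : Poly T) : UPoly (fun a => mM (T a)) :=
  UPoly.add (UPoly.mul (UPoly.const 11) (UPoly.length hT)) (UPoly.const 7)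

theorem upoly_nL {T : α → List ER.Con} (hT : Poly T) : UPoly (fun a => nL (T a)) :=
  UPoly.add (UPoly.add (UPoly.length (poly_svars hT)) (UPoly.const 1)) (upoly_mM hT)

theorem upoly_nn {T : α → List ER.Con} (hT : Poly T) : UPoly (fun a => nn (T a)) :=
  UPoly.add (UPoly.mul (UPoly.const 2) (upoly_nL hT)) (UPoly.const 1)

theorem poly_ic {T : α → List ER.Con} {j : α → ℕ} (hT : Poly T) (hj : Poly j) :
    Poly (fun a => ic (T a) (j a)) :=
  Poly.add (Poly.succ (Poly.length (poly_svars hT))) hj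

theorem poly_slack8 {L r : α → ℕ} (hL : Poly L) (hr : Poly r) :
    Poly (fun a => slack8 (L a) (r a)) := by
  have h1 := Poly.succ hr
  have h2 : Poly (fun a => L a + 1 + r a) := Poly.add (Poly.succ hL) hr
  exact Poly.pair (Poly.pair (Poly.const 8) (Poly.pair h1 h1))
    (Poly.pair (Poly.pair (Poly.const 8) (Poly.pair h2 h2)) (Poly.const _))

theorem poly_base {T : α → List ER.Con} (hT : Poly T) : Poly (fun a => base (T a)) :=
  Poly.pair (Poly.pair (Poly.const 8) (Poly.pair (poly_ic hT (Poly.const 0)) (Poly.const 0)))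
    (Poly.const _)

theorem poly_chain {T : α → List ER.Con} {j : α → ℕ} (hT : Poly T) (hj : Poly j) :
    Poly (fun a => chain (T a) (j a)) := by
  have h1 := poly_ic hT hj
  have h2 := poly_ic hT (Poly.succ hj)
  exact Poly.pair (Poly.pair (Poly.const 2) (Poly.pair h1 h1))
    (Poly.pair (Poly.pair (Poly.const (-2)) (Poly.pair h2 (Poly.const 0))) (Poly.const _))

theorem poly_nsys {T : α → List ER.Con} (hT : Poly T) : Poly (fun a => nsys (T a)) := by
  have hV := poly_svars hT
  refine Poly.cons (poly_base hT) (Poly.append ?_ (Poly.append ?_ ?_))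
  · exact Poly.map (F := fun a c => hcon (svars (T a)) c) hT
      (poly_hcon (hV.comp (Poly.fst Poly.id)) (Poly.snd Poly.id))
  · exact Poly.map (F := fun a j => chain (T a) j) (upoly_mM hT).range
      (poly_chain (hT.comp (Poly.fst Poly.id)) (Poly.snd Poly.id))
  · exact Poly.map (F := fun a r => slack8 (nL (T a)) r) (upoly_nL hT).range
      (poly_slack8 ((upoly_nL hT).toPoly.comp (Poly.fst Poly.id)) (Poly.snd Poly.id))

theorem poly_hform {T : α → List ER.Con} (hT : Poly T) : Poly (fun a => hform (T a)) :=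
  Poly.pair (Poly.const 1) (Poly.pair (poly_ic hT (upoly_mM hT).toPoly) (Poly.const 0))

theorem poly_sforms {T : α → List ER.Con} (hT : Poly T) : Poly (fun a => sforms (T a)) := by
  refine Poly.append (poly_forms (upoly_nn hT) (poly_nsys hT)) ?_
  exact Poly.map (F := fun a _ => [hform (T a)]) (poly_nsys hT)
    (Poly.cons ((poly_hform hT).comp (Poly.fst Poly.id)) (Poly.const []))

theorem poly_sinst {S : α → List ER.Con} (hS : Poly S) : Poly (fun a => sinst (S a)) := by
  have hT := poly_bsys hS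
  have hG := poly_nsys hT
  have hF := poly_sforms hT
  refine Poly.pair (poly_tenL (UPoly.add (upoly_nn hT) (UPoly.length hF)) hF) ?_
  exact poly_intToRat (Poly.natCast (Poly.mul (Poly.const 48) (Poly.length hG)))

end

/-- SPECTRAL-NORM-EXCEED is `∃ℝ`-hard. -/
theorem exceed_hard : ERHard (lang SpectralNormExceed) :=
  ERHard.of_sys (poly_sinst Poly.id) sat_iff_exceed

theorem exceed_iff_not_bound {q : List (List (List ℚ)) × ℚ} (h1 : IsCube q.1) (h2 : 0 < q.2) :
    SpectralNormExceed q ↔ ¬ SpectralNormBound q := by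
  unfold SpectralNormExceed SpectralNormBound
  constructor
  · rintro ⟨-, -, h⟩ ⟨-, -, h'⟩
    exact absurd h (not_lt.2 h')
  · intro h
    refine ⟨h1, h2, ?_⟩
    by_contra h'
    exact h ⟨h1, h2, not_lt.1 h'⟩

theorem sinst_fst (S : List ER.Con) : (sinst S).1 =
    tenL (nn (bsys S) + (sforms (bsys S)).length) (sforms (bsys S)) := by
  unfold sinst
  dsimp only

theorem sinst_snd (S : List ER.Con) : (sinst S).2 =
    (((48 * (nsys (bsys S)).length : ℕ) : ℤ) : ℚ) := by
  unfold sinst
  dsimp only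

theorem isCube_sinst (S : List ER.Con) : IsCube (sinst S).1 := by
  rw [sinst_fst]
  exact isCube_tenL _ _

theorem pos_sinst (S : List ER.Con) : 0 < (sinst S).2 := by
  rw [sinst_snd]
  exact num_pos _

theorem not_bound_sinst (S : List ER.Con) : Sat S ↔ ¬ SpectralNormBound (sinst S) := by
  rw [sat_iff_exceed]
  exact exceed_iff_not_bound (isCube_sinst S) (pos_sinst S)

/-- SPECTRAL-NORM-BOUND is `∀ℝ`-hard. -/
theorem bound_hard : ARHard (lang SpectralNormBound) :=
  ARHard.of_sys (poly_sinst Poly.id) not_bound_sinst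

/-! ### Membership -/

/-- The term for the value of the tensor. -/
def tT (d : ℕ) : Tm :=
  sumTm ((List.range d).flatMap fun i => (List.range d).flatMap fun j => (List.range d).map fun k =>
    Tm.mul (Tm.mul (Tm.mul (Tm.var (vw d i j k)) (Tm.var (4 * i))) (Tm.var (4 * j + 1)))
      (Tm.var (4 * k + 2)))

/-- The list of the formulas. -/
def fL (q : List (List (List ℚ)) × ℚ) : List Fm :=
  fU q.1.length 0 :: fU q.1.length 1 :: fU q.1.length 2 ::
    eqRat (Tm.var (vs q.1.length)) q.2 ::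
    Fm.lt (Tm.var (vs q.1.length)) (tT q.1.length) :: fEnt q.1

/-- The formula for SPECTRAL-NORM-EXCEED. -/
def fEx (q : List (List (List ℚ)) × ℚ) : Fm :=
  bif isCubeB q.1 && isPosB q.2 then conj (fL q) else H670R2.ff

/-- The formula for the complement of SPECTRAL-NORM-BOUND. -/
def fNB (q : List (List (List ℚ)) × ℚ) : Fm :=
  bif isCubeB q.1 && isPosB q.2 then conj (fL q) else tt

theorem sum_flatMap2_range (n : ℕ) (l : List ℕ) (F : ℕ → ℕ → ℕ → Tm) (v : ℕ → ℝ) :
    ((l.flatMap fun i => (List.range n).flatMap fun j => (List.range n).map fun k =>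
      F i j k).map (Tm.eval v)).sum =
      (l.map fun i => ∑ j ∈ range n, ∑ k ∈ range n, (F i j k).eval v).sum := by
  induction l with
  | nil => simp
  | cons a l ih =>
    simp only [List.flatMap_cons, List.map_append, List.sum_append, ih, List.map_cons,
      List.sum_cons]
    rw [sum_flatMap_range, sum_list_range]

theorem eval_tT (d : ℕ) (v : ℕ → ℝ) : (tT d).eval v = ∑ i ∈ range d, ∑ j ∈ range d,
    ∑ k ∈ range d, v (vw d i j k) * v (4 * i) * v (4 * j + 1) * v (4 * k + 2) := by
  unfold tT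
  rw [eval_sumTm, sum_flatMap2_range, sum_list_range]
  rfl

theorem holds_fL (q : List (List (List ℚ)) × ℚ) (v : ℕ → ℝ) :
    (∀ φ ∈ fL q, φ.Holds v) ↔ (fU q.1.length 0).Holds v ∧ (fU q.1.length 1).Holds v ∧
      (fU q.1.length 2).Holds v ∧ (eqRat (Tm.var (vs q.1.length)) q.2).Holds v ∧
      (Fm.lt (Tm.var (vs q.1.length)) (tT q.1.length)).Holds v ∧
      (∀ φ ∈ fEnt q.1, φ.Holds v) := by
  unfold fL
  simp only [List.forall_mem_cons]

/-- **Correctness of the formula.** -/
theorem exc_iff_etr (q : List (List (List ℚ)) × ℚ) :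
    Exc q.1.length (fun i j k => ((entry q.1 i j k : ℚ) : ℝ)) (q.2 : ℝ) ↔ ETR (conj (fL q)) := by
  unfold ETR
  simp_rw [holds_conj, holds_fL, holds_fU, holds_fEnt, holds_eqRat, Fm.Holds, eval_tT]
  set d := q.1.length with hd
  constructor
  · rintro ⟨x, y, z, hx, hy, hz, hT⟩
    let v : ℕ → ℝ := fun n => if n % 4 = 0 then x (n / 4) else if n % 4 = 1 then y (n / 4) else
      if n % 4 = 2 then z (n / 4) else
      if n / 4 = d * d * d then (q.2 : ℝ) else
        ((entry q.1 (n / 4 / d / d) (n / 4 / d % d) (n / 4 % d) : ℚ) : ℝ)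
    have v0 : ∀ i, v (4 * i) = x i := by
      intro i
      simp only [v]
      rw [if_pos (by omega)]
      congr 1; omega
    have v0' : ∀ i, v (4 * i + 0) = x i := v0
    have v1 : ∀ i, v (4 * i + 1) = y i := by
      intro i
      simp only [v]
      rw [if_neg (by omega), if_pos (by omega)]
      congr 1; omega
    have v2 : ∀ i, v (4 * i + 2) = z i := by
      intro i
      simp only [v]
      rw [if_neg (by omega), if_neg (by omega), if_pos (by omega)]
      congr 1; omega
    have v3 : v (vs d) = (q.2 : ℝ) := by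
      simp only [v, vs]
      rw [if_neg (by omega), if_neg (by omega), if_neg (by omega), if_pos (by omega)]
    have v4 : ∀ i < d, ∀ j < d, ∀ k < d, v (vw d i j k) = ((entry q.1 i j k : ℚ) : ℝ) := by
      intro i hi j hj k hk
      have e0 : (4 * ((i * d + j) * d + k) + 3) / 4 = (i * d + j) * d + k := by omega
      have hd0 : 0 < d := by omega
      have e1 : ((i * d + j) * d + k) % d = k := by
        rw [Nat.mul_comm, Nat.mul_add_mod, Nat.mod_eq_of_lt hk]
      have e2 : ((i * d + j) * d + k) / d = i * d + j := by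
        rw [Nat.mul_comm, Nat.mul_add_div hd0, Nat.div_eq_of_lt hk, Nat.add_zero]
      have e3 : (i * d + j) % d = j := by
        rw [Nat.mul_comm, Nat.mul_add_mod, Nat.mod_eq_of_lt hj]
      have e4 : (i * d + j) / d = i := by
        rw [Nat.mul_comm, Nat.mul_add_div hd0, Nat.div_eq_of_lt hj, Nat.add_zero]
      have e5 : (i * d + j) * d + k ≠ d * d * d := by
        have h5 : i * d + j < d * d := by
          calc i * d + j < i * d + d := by omega
            _ = (i + 1) * d := by ring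
            _ ≤ d * d := Nat.mul_le_mul_right _ hi
        have h6 : (i * d + j) * d + k < d * d * d := by
          calc (i * d + j) * d + k < (i * d + j) * d + d := by omega
            _ = (i * d + j + 1) * d := by ring
            _ ≤ d * d * d := Nat.mul_le_mul_right _ h5
        omega
      simp only [v, vw]
      rw [if_neg (by omega), if_neg (by omega), if_neg (by omega), e0, if_neg e5, e2, e4, e1, e3]
    refine ⟨v, ?_, ?_, ?_, v3, ?_, v4⟩
    · simp_rw [v0']; exact hx
    · simp_rw [v1]; exact hy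
    · simp_rw [v2]; exact hz
    · simp only [Tm.eval]
      rw [v3]
      refine hT.trans_eq ?_
      unfold tens3
      exact Finset.sum_congr rfl fun i hi => Finset.sum_congr rfl fun j hj =>
        Finset.sum_congr rfl fun k hk => by
          rw [v4 i (Finset.mem_range.1 hi) j (Finset.mem_range.1 hj) k (Finset.mem_range.1 hk),
            v0, v1, v2]
  · rintro ⟨v, hx, hy, hz, v3, hT, v4⟩
    simp only [Tm.eval] at v3 hT
    refine ⟨fun i => v (4 * i), fun i => v (4 * i + 1), fun i => v (4 * i + 2), hx, hy, hz, ?_⟩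
    rw [← v3]
    refine hT.trans_eq ?_
    unfold tens3
    exact Finset.sum_congr rfl fun i hi => Finset.sum_congr rfl fun j hj =>
      Finset.sum_congr rfl fun k hk => by
        rw [v4 i (Finset.mem_range.1 hi) j (Finset.mem_range.1 hj) k (Finset.mem_range.1 hk)]

theorem valid_cases (q : List (List (List ℚ)) × ℚ) :
    ((isCubeB q.1 && isPosB q.2) = true ∧ IsCube q.1 ∧ 0 < q.2) ∨
      ((isCubeB q.1 && isPosB q.2) = false ∧ ¬ (IsCube q.1 ∧ 0 < q.2)) := by
  by_cases hq : isCubeB q.1 = true ∧ isPosB q.2 = true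
  · exact Or.inl ⟨by rw [hq.1, hq.2]; rfl, (isCubeB_iff _).1 hq.1, (isPosB_iff _).1 hq.2⟩
  · refine Or.inr ⟨?_, fun h => hq ⟨(isCubeB_iff _).2 h.1, (isPosB_iff _).2 h.2⟩⟩
    rw [Bool.eq_false_iff]
    intro h
    exact hq (Bool.and_eq_true_iff.1 h)

theorem exceed_iff_etr (q : List (List (List ℚ)) × ℚ) : SpectralNormExceed q ↔ ETR (fEx q) := by
  rw [exceed_iff]
  unfold fEx
  rcases valid_cases q with ⟨hb, h1, h2⟩ | ⟨hb, h⟩
  · rw [hb, cond_true, ← exc_iff_etr]
    exact ⟨fun h => h.2.2, fun h => ⟨h1, h2, h⟩⟩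
  · rw [hb, cond_false]
    exact ⟨fun h' => absurd ⟨h'.1, h'.2.1⟩ h, fun h' => absurd h' not_etr_ff⟩

theorem not_bound_iff_etr (q : List (List (List ℚ)) × ℚ) :
    ¬ SpectralNormBound q ↔ ETR (fNB q) := by
  unfold fNB
  rcases valid_cases q with ⟨hb, h1, h2⟩ | ⟨hb, h⟩
  · rw [hb, cond_true, ← exc_iff_etr, ← lt_spectralNorm_iff _ (by exact_mod_cast h2.le)]
    unfold SpectralNormBound
    constructor
    · intro h
      by_contra h'
      exact h ⟨h1, h2, not_lt.1 h'⟩
    · rintro h ⟨-, -, h'⟩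
      exact absurd h (not_lt.2 h')
  · rw [hb, cond_false]
    exact ⟨fun _ => ⟨fun _ => 0, holds_tt _⟩, fun _ h' => h ⟨h'.1, h'.2.1⟩⟩

section

variable {α : Type} [TEnc α]

theorem poly_tT {d : α → ℕ} (hd : UPoly d) : Poly (fun a => tT (d a)) := by
  refine poly_sumTm ?_
  refine Poly.flatMap (F := fun a i => (List.range (d a)).flatMap fun j =>
    (List.range (d a)).map fun k => Tm.mul (Tm.mul (Tm.mul (Tm.var (vw (d a) i j k))
      (Tm.var (4 * i))) (Tm.var (4 * j + 1))) (Tm.var (4 * k + 2))) hd.range ?_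
  refine Poly.flatMap (F := fun (p : α × ℕ) j =>
    (List.range (d p.1)).map fun k => Tm.mul (Tm.mul (Tm.mul (Tm.var (vw (d p.1) p.2 j k))
      (Tm.var (4 * p.2))) (Tm.var (4 * j + 1))) (Tm.var (4 * k + 2)))
    (hd.range.comp (Poly.fst Poly.id)) ?_
  refine Poly.map (F := fun (p : (α × ℕ) × ℕ) k => Tm.mul (Tm.mul (Tm.mul
      (Tm.var (vw (d p.1.1) p.1.2 p.2 k)) (Tm.var (4 * p.1.2))) (Tm.var (4 * p.2 + 1)))
        (Tm.var (4 * k + 2)))
    (hd.range.comp (Poly.fst (Poly.fst Poly.id))) ?_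
  have e1 : Poly (fun p : ((α × ℕ) × ℕ) × ℕ => p.1.1.1) :=
    Poly.fst (Poly.fst (Poly.fst Poly.id))
  have e2 : Poly (fun p : ((α × ℕ) × ℕ) × ℕ => p.1.1.2) :=
    Poly.snd (Poly.fst (Poly.fst Poly.id))
  have e3 : Poly (fun p : ((α × ℕ) × ℕ) × ℕ => p.1.2) := Poly.snd (Poly.fst Poly.id)
  have e4 : Poly (fun p : ((α × ℕ) × ℕ) × ℕ => p.2) := Poly.snd Poly.id
  exact poly_tmul (poly_tmul (poly_tmul (poly_tvar (poly_vw (hd.toPoly.comp e1) e2 e3 e4))
    (poly_lin0 e2)) (poly_lin e3 1)) (poly_lin e4 2)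

end

theorem poly_fL : Poly (fun q : List (List (List ℚ)) × ℚ => conj (fL q)) := by
  have h1 : Poly (fun q : List (List (List ℚ)) × ℚ => q.1) := Poly.fst Poly.id
  have h2 : Poly (fun q : List (List (List ℚ)) × ℚ => q.2) := Poly.snd Poly.id
  have hd : UPoly (fun q : List (List (List ℚ)) × ℚ => q.1.length) := UPoly.length h1
  refine poly_conj ?_
  exact Poly.cons (poly_fU hd 0) (Poly.cons (poly_fU hd 1) (Poly.cons (poly_fU hd 2)
      (Poly.cons (poly_eqRat (poly_tvar (poly_vs hd.toPoly)) h2)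
        (Poly.cons (poly_lt (poly_tvar (poly_vs hd.toPoly)) (poly_tT hd)) (poly_fEnt h1)))))

theorem poly_valid : Poly (fun q : List (List (List ℚ)) × ℚ => isCubeB q.1 && isPosB q.2) := by
  have h1 : Poly (fun q : List (List (List ℚ)) × ℚ => q.1) := Poly.fst Poly.id
  have h2 : Poly (fun q : List (List (List ℚ)) × ℚ => q.2) := Poly.snd Poly.id
  have hd : UPoly (fun q : List (List (List ℚ)) × ℚ => q.1.length) := UPoly.length h1
  refine Poly.and ?_ ?_
  · refine Poly.all (p := fun (q : List (List (List ℚ)) × ℚ) a =>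
      decide (a.length = q.1.length) && a.all fun b => decide (b.length = q.1.length)) h1 ?_
    refine Poly.and (Poly.decide_eq (Poly.length (Poly.snd Poly.id))
      (hd.toPoly.comp (Poly.fst Poly.id))) ?_
    refine Poly.all (p := fun (r : (List (List (List ℚ)) × ℚ) × List (List ℚ)) b =>
      decide (b.length = r.1.1.length)) (Poly.snd Poly.id) ?_
    exact Poly.decide_eq (Poly.length (Poly.snd Poly.id))
      (hd.toPoly.comp (Poly.fst (Poly.fst Poly.id)))
  · exact Poly.and (Poly.not (poly_isNeg (poly_ratNum h2)))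
      (Poly.not (Poly.decide_eq (poly_natAbs (poly_ratNum h2)) (Poly.const 0)))

/-- SPECTRAL-NORM-EXCEED belongs to `∃ℝ`. -/
theorem exceed_mem : InER (lang SpectralNormExceed) :=
  ER.InER.of_poly (Poly.cond poly_valid poly_fL (Poly.const _)) exceed_iff_etr

/-- SPECTRAL-NORM-BOUND belongs to `∀ℝ`. -/
theorem bound_mem : InAR (lang SpectralNormBound) :=
  ER.InAR.of_poly (Poly.cond poly_valid poly_fL (Poly.const _)) not_bound_iff_etr

end Pool.Agent.NPC.R537QN
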